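import Pool.Agent.H35.FF.Po

/-!
# THEOREM FF: clearing denominators

`p(t + 1/t) t^k` is a polynomial in `t` for `k ≥ deg p`: `P = ∑ p_i (X² + 1)^i X^(k - i)`.
-/

set_option autoImplicit false

open Polynomial

namespace Pool.Agent.H35.FF

variable {F : Type} [Field F]

private theorem sT : (HahnSeries.single (-1) 1 * HahnSeries.single 1 1 : LaurentSeries F) = 1 := by
  rw [HahnSeries.single_mul_single, neg_add_cancel, one_mul, HahnSeries.single_zero_one]

private theorem s_pow (k : ℕ) : (HahnSeries.single (-(k : ℤ)) 1 : LaurentSeries F) = HahnSeries.single (-1) 1 ^ k := by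
  rw [HahnSeries.single_pow, one_pow]
  congr 1
  simp

private theorem t_pow (k : ℕ) : (HahnSeries.single (k : ℤ) 1 : LaurentSeries F) = HahnSeries.single 1 1 ^ k := by
  rw [HahnSeries.single_pow, one_pow]
  congr 1
  simp

/-- the polynomial `p(t + 1/t) t^k` -/
private noncomputable def clr (k : ℕ) (p : F[X]) : F[X] :=
  ∑ i ∈ Finset.range (k + 1), C (p.coeff i) * ((X ^ 2 + 1) ^ i * X ^ (k - i))

private theorem ei_clr (p : F[X]) (k : ℕ) (hk : p.natDegree ≤ k) :
    ei F (clr k p) = HahnSeries.single (-(k : ℤ)) 1 * et F p := by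
  have e1 : et F p = ∑ i ∈ Finset.range (k + 1),
      HahnSeries.C (p.coeff i) * (HahnSeries.single (-1) 1 + HahnSeries.single 1 1 : LaurentSeries F) ^ i := by
    unfold et
    rw [coe_eval₂RingHom]
    exact eval₂_eq_sum_range' _ (Nat.lt_succ_of_le hk) _
  have hX : ei F X = HahnSeries.single (-1) 1 := by
    unfold ei
    rw [coe_eval₂RingHom, eval₂_X]
  have hC : ∀ c : F, ei F (C c) = HahnSeries.C c := by
    intro c
    unfold ei
    rw [coe_eval₂RingHom, eval₂_C]
  rw [e1, clr, map_sum, Finset.mul_sum, s_pow]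
  refine Finset.sum_congr rfl fun i hi => ?_
  have hik : i ≤ k := Nat.lt_succ_iff.1 (Finset.mem_range.1 hi)
  rw [map_mul, map_mul, map_pow, map_pow, map_add, map_pow, map_one, hX, hC]
  obtain ⟨j, rfl⟩ := Nat.exists_eq_add_of_le hik
  rw [Nat.add_sub_cancel_left]
  have h1 : (HahnSeries.single (-1) 1 ^ 2 + 1 : LaurentSeries F) =
      HahnSeries.single (-1) 1 * (HahnSeries.single (-1) 1 + HahnSeries.single 1 1) := by
    rw [mul_add, sT]
    ring
  rw [h1, mul_pow]
  ring

private theorem ez_clr (p : F[X]) (k : ℕ) (hk : p.natDegree ≤ k) :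
    ez F (clr k p) = HahnSeries.single (k : ℤ) 1 * et F p := by
  have e1 : et F p = ∑ i ∈ Finset.range (k + 1),
      HahnSeries.C (p.coeff i) * (HahnSeries.single (-1) 1 + HahnSeries.single 1 1 : LaurentSeries F) ^ i := by
    unfold et
    rw [coe_eval₂RingHom]
    exact eval₂_eq_sum_range' _ (Nat.lt_succ_of_le hk) _
  have hX : ez F X = HahnSeries.single 1 1 := by
    unfold ez
    rw [coe_eval₂RingHom, eval₂_X]
  have hC : ∀ c : F, ez F (C c) = HahnSeries.C c := by
    intro c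
    unfold ez
    rw [coe_eval₂RingHom, eval₂_C]
  rw [e1, clr, map_sum, Finset.mul_sum, t_pow]
  refine Finset.sum_congr rfl fun i hi => ?_
  have hik : i ≤ k := Nat.lt_succ_iff.1 (Finset.mem_range.1 hi)
  rw [map_mul, map_mul, map_pow, map_pow, map_add, map_pow, map_one, hX, hC]
  obtain ⟨j, rfl⟩ := Nat.exists_eq_add_of_le hik
  rw [Nat.add_sub_cancel_left]
  have h1 : (HahnSeries.single 1 1 ^ 2 + 1 : LaurentSeries F) =
      HahnSeries.single 1 1 * (HahnSeries.single (-1) 1 + HahnSeries.single 1 1) := by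
    rw [mul_add, mul_comm (HahnSeries.single 1 1) (HahnSeries.single (-1) 1), sT]
    ring
  rw [h1, mul_pow]
  ring

private theorem clr_ne {p : F[X]} (hp : p ≠ 0) : clr p.natDegree p ≠ 0 := by
  intro h
  have h1 := congrArg (eval 0) h
  rw [clr, eval_finsetSum, eval_zero, Finset.sum_range_succ] at h1
  rw [Finset.sum_eq_zero fun i hi => ?_] at h1
  · rw [zero_add, Nat.sub_self, pow_zero, mul_one, eval_mul, eval_C, eval_pow, eval_add, eval_pow, eval_X, eval_one] at h1
    rw [zero_pow two_ne_zero, zero_add, one_pow, mul_one] at h1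
    exact hp (leadingCoeff_eq_zero.1 h1)
  · have h2 : p.natDegree - i ≠ 0 := by
      have := Finset.mem_range.1 hi
      omega
    have h3 : eval 0 (X ^ (p.natDegree - i) : F[X]) = 0 := by rw [eval_pow, eval_X, zero_pow h2]
    rw [eval_mul, eval_mul, h3, mul_zero, mul_zero]

theorem et_ne {p : F[X]} (hp : p ≠ 0) : et F p ≠ 0 := by
  intro h
  have h1 := ei_clr p p.natDegree le_rfl
  rw [h, mul_zero] at h1
  exact (ei_ne (clr_ne hp)).1 h1

theorem clear (p : F[X]) (k : ℕ) (hk : p.natDegree ≤ k) : ∃ P : F[X],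
    ei F P = HahnSeries.single (-(k : ℤ)) 1 * et F p ∧
    ez F P = HahnSeries.single (k : ℤ) 1 * et F p :=
  ⟨clr k p, ei_clr p k hk, ez_clr p k hk⟩

private theorem pair_zero {k : ℕ} {x₀ x₁ A : F[X]}
    (h1 : ei F A = HahnSeries.single (-(k : ℤ)) 1 * (et F x₀ + HahnSeries.single (-1) 1 * et F x₁))
    (h2 : ez F A = HahnSeries.single (k : ℤ) 1 * (et F x₀ + HahnSeries.single 1 1 * et F x₁)) (hA : A = 0) :
    x₀ = 0 ∧ x₁ = 0 := by
  rw [hA, map_zero] at h1 h2
  have n1 : (HahnSeries.single (-(k : ℤ)) 1 : LaurentSeries F) ≠ 0 := HahnSeries.single_ne_zero one_ne_zero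
  have n2 : (HahnSeries.single (k : ℤ) 1 : LaurentSeries F) ≠ 0 := HahnSeries.single_ne_zero one_ne_zero
  have h3 := (mul_eq_zero.1 h1.symm).resolve_left n1
  have h4 := (mul_eq_zero.1 h2.symm).resolve_left n2
  have h5 : (HahnSeries.single (-1) 1 - HahnSeries.single 1 1 : LaurentSeries F) * et F x₁ = 0 := by
    linear_combination h3 - h4
  have n3 : (HahnSeries.single (-1) 1 - HahnSeries.single 1 1 : LaurentSeries F) ≠ 0 := by
    intro h
    have h6 := congrArg (fun f : LaurentSeries F => f.coeff 1) h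
    have h7 : (HahnSeries.single (-1) 1 - HahnSeries.single 1 1 : LaurentSeries F).coeff 1 = 0 := h6
    rw [HahnSeries.coeff_sub, HahnSeries.coeff_single_same, HahnSeries.coeff_single_of_ne (by norm_num)] at h7
    simp at h7
  have h8 : et F x₁ = 0 := (mul_eq_zero.1 h5).resolve_left n3
  have h9 : x₁ = 0 := by
    by_contra hc
    exact et_ne hc h8
  refine ⟨?_, h9⟩
  by_contra hc
  rw [h8, mul_zero, add_zero] at h3
  exact et_ne hc h3

private theorem pair_clr (k : ℕ) (x₀ x₁ : F[X]) (h0 : x₀.natDegree ≤ k) (h1 : x₁.natDegree ≤ k) :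
    ei F (clr k x₀ + X * clr k x₁) =
      HahnSeries.single (-(k : ℤ)) 1 * (et F x₀ + HahnSeries.single (-1) 1 * et F x₁) ∧
    ez F (clr k x₀ + X * clr k x₁) =
      HahnSeries.single (k : ℤ) 1 * (et F x₀ + HahnSeries.single 1 1 * et F x₁) := by
  constructor
  · have hX : ei F X = HahnSeries.single (-1) 1 := by
      unfold ei
      rw [coe_eval₂RingHom, eval₂_X]
    rw [map_add, map_mul, hX, ei_clr _ _ h0, ei_clr _ _ h1]
    ring
  · have hX : ez F X = HahnSeries.single 1 1 := by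
      unfold ez
      rw [coe_eval₂RingHom, eval₂_X]
    rw [map_add, map_mul, hX, ez_clr _ _ h0, ez_clr _ _ h1]
    ring

/-- for `x₀ + t x₁`, all at once, with the same `k` -/
theorem clear₂ (x₀ x₁ y₀ y₁ : F[X]) : ∃ (k : ℕ) (A B : F[X]),
    ei F A = HahnSeries.single (-(k : ℤ)) 1 * (et F x₀ + HahnSeries.single (-1) 1 * et F x₁) ∧
    ez F A = HahnSeries.single (k : ℤ) 1 * (et F x₀ + HahnSeries.single 1 1 * et F x₁) ∧
    ei F B = HahnSeries.single (-(k : ℤ)) 1 * (et F y₀ + HahnSeries.single (-1) 1 * et F y₁) ∧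
    ez F B = HahnSeries.single (k : ℤ) 1 * (et F y₀ + HahnSeries.single 1 1 * et F y₁) ∧
    (A = 0 → x₀ = 0 ∧ x₁ = 0) ∧ (B = 0 → y₀ = 0 ∧ y₁ = 0) := by
  obtain ⟨k, hk⟩ : ∃ k, k = max (max x₀.natDegree x₁.natDegree) (max y₀.natDegree y₁.natDegree) := ⟨_, rfl⟩
  obtain ⟨a1, a2⟩ := pair_clr k x₀ x₁ (by omega) (by omega)
  obtain ⟨b1, b2⟩ := pair_clr k y₀ y₁ (by omega) (by omega)
  exact ⟨k, _, _, a1, a2, b1, b2, pair_zero a1 a2, pair_zero b1 b2⟩

end Pool.Agent.H35.FF
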