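import Pool.Agent.H35.FF.Spec

/-!
# THEOREM FF (MP_edeaa2): definitions

`LaurentSeries F` is used twice: as `F((s))` and (in the final statement) as `F((1/X))`. `phi` is the substitution `s ↦ s²`; `ei`, `ez`, `et` are the ring homomorphisms `F[X] → F((s))` with `X ↦ s⁻¹`, `X ↦ s`, `X ↦ s⁻¹ + s`.
-/

set_option autoImplicit false

open Polynomial

namespace Pool.Agent.H35.FF

/-- `n ↦ 2 n` -/
def dbl : ℤ →+ ℤ := AddMonoidHom.mulLeft 2

theorem dbl_apply (n : ℤ) : dbl n = 2 * n := rfl

theorem dbl_inj : Function.Injective dbl := fun a b h => by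
  have h1 : 2 * a = 2 * b := h
  omega

theorem dbl_le (a b : ℤ) : dbl a ≤ dbl b ↔ a ≤ b := by
  rw [dbl_apply, dbl_apply]
  omega

/-- the substitution `s ↦ s²` -/
noncomputable def phi (F : Type) [Field F] : LaurentSeries F →+* LaurentSeries F :=
  HahnSeries.embDomainRingHom dbl dbl_inj dbl_le

/-- `X ↦ s` -/
noncomputable def ez (F : Type) [Field F] : F[X] →+* LaurentSeries F :=
  eval₂RingHom HahnSeries.C (HahnSeries.single 1 1)

/-- `X ↦ s⁻¹ + s` -/
noncomputable def et (F : Type) [Field F] : F[X] →+* LaurentSeries F :=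
  eval₂RingHom HahnSeries.C (HahnSeries.single (-1) 1 + HahnSeries.single 1 1)

end Pool.Agent.H35.FF
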