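import Pool.Agent.H35.FF.Defs

/-!
# THEOREM FF: polynomials in `s⁻¹` and in `s`

`split`: `A₀ = contract 2 w`, `A₁ = contract 2 (divX w)` (compare coefficients). The orders: `ei p = ∑ p_i s^(-i)`, `ez p = ∑ p_i s^i` (`Polynomial.sum`/`eval₂_eq_sum`, `HahnSeries.coeff` of a sum of singles).
-/

set_option autoImplicit false

open Polynomial

namespace Pool.Agent.H35.FF

variable {F : Type} [Field F]

private theorem ei_mono (k : ℕ) (a : F) : ei F (monomial k a) = HahnSeries.single (-(k : ℤ)) a := by
  unfold ei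
  rw [coe_eval₂RingHom, eval₂_monomial, HahnSeries.single_pow, HahnSeries.C_apply,
    HahnSeries.single_mul_single, one_pow, mul_one, zero_add, nsmul_eq_mul, mul_neg_one]

private theorem ez_mono (k : ℕ) (a : F) : ez F (monomial k a) = HahnSeries.single (k : ℤ) a := by
  unfold ez
  rw [coe_eval₂RingHom, eval₂_monomial, HahnSeries.single_pow, HahnSeries.C_apply,
    HahnSeries.single_mul_single, one_pow, mul_one, zero_add, nsmul_eq_mul, mul_one]

private theorem ei_co (p : F[X]) (n : ℤ) :
    (ei F p).coeff n = if n ≤ 0 then p.coeff (-n).toNat else 0 := by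
  induction p using Polynomial.induction_on' with
  | add p q hp hq =>
    rw [map_add, HahnSeries.coeff_add, hp, hq]
    split_ifs
    · rw [coeff_add]
    · rw [add_zero]
  | monomial k a =>
    rw [ei_mono, HahnSeries.coeff_single, coeff_monomial]
    by_cases h : n ≤ 0
    · rw [if_pos h]
      by_cases h1 : k = (-n).toNat
      · rw [if_pos h1, if_pos (by omega)]
      · rw [if_neg h1, if_neg (by omega)]
    · rw [if_neg h, if_neg (by omega)]

private theorem ez_co (p : F[X]) (n : ℤ) :
    (ez F p).coeff n = if 0 ≤ n then p.coeff n.toNat else 0 := by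
  induction p using Polynomial.induction_on' with
  | add p q hp hq =>
    rw [map_add, HahnSeries.coeff_add, hp, hq]
    split_ifs
    · rw [coeff_add]
    · rw [add_zero]
  | monomial k a =>
    rw [ez_mono, HahnSeries.coeff_single, coeff_monomial]
    by_cases h : 0 ≤ n
    · rw [if_pos h]
      by_cases h1 : k = n.toNat
      · rw [if_pos h1, if_pos (by omega)]
      · rw [if_neg h1, if_neg (by omega)]
    · rw [if_neg h, if_neg (by omega)]

theorem ei_coeff (p : F[X]) (n : ℕ) : (ei F p).coeff (-(n : ℤ)) = p.coeff n := by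
  rw [ei_co, if_pos (by omega), neg_neg, Int.toNat_natCast]

theorem ei_coeff_pos (p : F[X]) (n : ℤ) (hn : 0 < n) : (ei F p).coeff n = 0 := by
  rw [ei_co, if_neg (by omega)]

theorem ez_coeff (p : F[X]) (n : ℕ) : (ez F p).coeff (n : ℤ) = p.coeff n := by
  rw [ez_co, if_pos (by omega), Int.toNat_natCast]

theorem ez_coeff_neg (p : F[X]) (n : ℤ) (hn : n < 0) : (ez F p).coeff n = 0 := by
  rw [ez_co, if_neg (by omega)]

theorem ei_ne {p : F[X]} (hp : p ≠ 0) : ei F p ≠ 0 ∧ (ei F p).order = -(p.natDegree : ℤ) := by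
  have h1 : (ei F p).coeff (-(p.natDegree : ℤ)) ≠ 0 := by
    rw [ei_coeff]
    exact leadingCoeff_ne_zero.2 hp
  have h0 : ei F p ≠ 0 := fun h => h1 (by rw [h, HahnSeries.coeff_zero])
  refine ⟨h0, le_antisymm (HahnSeries.order_le_of_coeff_ne_zero h1) ?_⟩
  have h2 : (ei F p).coeff (ei F p).order ≠ 0 := fun h => h0 (HahnSeries.coeff_order_eq_zero.1 h)
  rw [ei_co] at h2
  by_cases h3 : (ei F p).order ≤ 0
  · rw [if_pos h3] at h2
    have h4 := le_natDegree_of_ne_zero h2
    omega
  · rw [if_neg h3] at h2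
    exact absurd rfl h2

theorem ez_ne {p : F[X]} (hp : p ≠ 0) :
    ez F p ≠ 0 ∧ (ez F p).order = (p.natTrailingDegree : ℤ) := by
  have h1 : (ez F p).coeff (p.natTrailingDegree : ℤ) ≠ 0 := by
    rw [ez_coeff]
    exact trailingCoeff_nonzero_iff_nonzero.2 hp
  have h0 : ez F p ≠ 0 := fun h => h1 (by rw [h, HahnSeries.coeff_zero])
  refine ⟨h0, le_antisymm (HahnSeries.order_le_of_coeff_ne_zero h1) ?_⟩
  have h2 : (ez F p).coeff (ez F p).order ≠ 0 := fun h => h0 (HahnSeries.coeff_order_eq_zero.1 h)
  rw [ez_co] at h2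
  by_cases h3 : 0 ≤ (ez F p).order
  · rw [if_pos h3] at h2
    have h4 := natTrailingDegree_le_of_ne_zero h2
    omega
  · rw [if_neg h3] at h2
    exact absurd rfl h2

/-- every polynomial is `A₀(X²) + X A₁(X²)` -/
theorem split (w : F[X]) : ∃ A₀ A₁ : F[X], w = expand F 2 A₀ + X * expand F 2 A₁ ∧
    2 * A₀.natDegree ≤ w.natDegree ∧ 2 * A₁.natDegree ≤ w.natDegree := by
  refine ⟨contract 2 w, contract 2 (divX w), ?_, ?_, ?_⟩
  · ext n
    rw [coeff_add, coeff_expand (by norm_num)]
    rcases n with _ | n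
    · rw [if_pos (dvd_zero 2), coeff_contract (by norm_num), mul_coeff_zero, coeff_X_zero,
        zero_mul, add_zero]
    · rw [coeff_X_mul, coeff_expand (by norm_num)]
      by_cases h : 2 ∣ n
      · rw [if_neg (by omega), if_pos h, coeff_contract (by norm_num), coeff_divX, zero_add,
          Nat.div_mul_cancel h]
      · rw [if_pos (by omega), if_neg h, coeff_contract (by norm_num), add_zero,
          Nat.div_mul_cancel (by omega)]
  · have h : (contract 2 w).natDegree ≤ w.natDegree / 2 := by
      rw [natDegree_le_iff_coeff_eq_zero]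
      intro N hN
      rw [coeff_contract (by norm_num)]
      exact coeff_eq_zero_of_natDegree_lt (by omega)
    omega
  · have h : (contract 2 (divX w)).natDegree ≤ w.natDegree / 2 := by
      rw [natDegree_le_iff_coeff_eq_zero]
      intro N hN
      rw [coeff_contract (by norm_num), coeff_divX]
      exact coeff_eq_zero_of_natDegree_lt (by omega)
    omega

/-- `X² - a` has order `-2` at infinity and `0` at zero -/
theorem ord_Q (a : F) (ha : a ≠ 0) : (ei F (X ^ 2 - C a)).order = -2 ∧
    (ez F (X ^ 2 - C a)).order = 0 := by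
  have h0 : (X ^ 2 - C a : F[X]) ≠ 0 := X_pow_sub_C_ne_zero (by norm_num) a
  refine ⟨?_, ?_⟩
  · rw [(ei_ne h0).2, natDegree_X_pow_sub_C]
    rfl
  · rw [(ez_ne h0).2]
    have h1 : (X ^ 2 - C a : F[X]).natTrailingDegree = 0 := by
      rw [natTrailingDegree_eq_zero]
      right
      rw [coeff_sub, coeff_X_pow, if_neg (by norm_num), coeff_C_zero, zero_sub]
      exact neg_ne_zero.2 ha
    rw [h1]
    rfl

end Pool.Agent.H35.FF
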