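import Pool.Agent.H35.FF.Ph
import Pool.Agent.H35.FF.Po

/-!
# THEOREM FF: existence of the series

All by recursion on the coefficients. General form (write it for power series or directly for coefficient functions `y : ℕ → ℕ → F`, `y k n` = coefficient of `s^k` at level `n`): `y k n = c y (k-2) n [k ≥ 2] + b y ((k-m)/2) (n+1) [k ≥ m, k - m even] + r k n` for `k ≥ 1` and `y 0 n = κ n`, where `m = 0` or `m = 2` (`(k - m)/2 < k` for `k ≥ 1`; define by well-founded recursion on `k`, termination by omega), and `Y n = ∑ y k n s^k` (`HahnSeries.ofPowerSeries`, `PowerSeries.mk`; the coefficient of the series at a negative exponent is `0`).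
`exH`: `c`, `b = 1`, `m = 0`, `r = 0`, `κ = 1` (constant in `n`). `exW`: `W (1 - a s²) = s² φ(W') + e_n s`: `c = a`, `b = 1`, `m = 2`, `κ = 0`, `r k n = e n` for `k = 1`. `exV`: `V (1 - a⁻¹ s²) = - a⁻¹ φ(V') - a⁻¹ e_n s`: `c = a⁻¹`, `b = - a⁻¹`, `m = 0`, `κ = 0`. The equations are checked coefficient by coefficient (`phi_even`, `phi_odd`, `HahnSeries.coeff_single_mul` or `coeff_mul_single`; `ei F (X^2 - C a) = single (-2) 1 - C a`).
-/

set_option autoImplicit false

open Polynomial

namespace Pool.Agent.H35.FF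

variable {F : Type} [Field F]

/-- the coefficients of the series -/
private noncomputable def yy (c b : F) (m : ℕ) (r : ℕ → ℕ → F) (κ : ℕ → F) : ℕ → ℕ → F
  | 0, n => κ n
  | k + 1, n => (if 1 ≤ k then c * yy c b m r κ (k - 1) n else 0) +
      (if m ≤ k + 1 ∧ (k + 1 - m) % 2 = 0 then b * yy c b m r κ ((k + 1 - m) / 2) (n + 1) else 0) + r (k + 1) n
termination_by k => k
decreasing_by all_goals omega

private noncomputable def ser (y : ℕ → F) : LaurentSeries F :=
  HahnSeries.ofPowerSeries ℤ F (PowerSeries.mk y)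

private theorem ser_coeff (y : ℕ → F) (k : ℤ) : (ser y).coeff k = if k < 0 then 0 else y k.natAbs := by
  unfold ser
  rw [PowerSeries.coeff_coe, PowerSeries.coeff_mk]

private theorem ser_nat (y : ℕ → F) (k : ℕ) : (ser y).coeff (k : ℤ) = y k := by
  rw [ser_coeff, if_neg (by omega), Int.natAbs_natCast]

private theorem ser_neg (y : ℕ → F) {k : ℤ} (hk : k < 0) : (ser y).coeff k = 0 := by
  rw [ser_coeff, if_pos hk]

private theorem phi_ser (y : ℕ → F) (k : ℤ) :
    (phi F (ser y)).coeff k = if 0 ≤ k ∧ k % 2 = 0 then y (k / 2).toNat else 0 := by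
  rcases Int.even_or_odd' k with ⟨i, rfl | rfl⟩
  · rw [phi_even, ser_coeff]
    by_cases h : i < 0
    · rw [if_pos h, if_neg (by omega)]
    · rw [if_neg h, if_pos (by omega)]
      congr 1
      omega
  · rw [phi_odd, if_neg (by omega)]

private theorem yy_ser (c b : F) (m : ℕ) (r : ℕ → ℕ → F) (κ : ℕ → F) (n k : ℕ) (hk : 1 ≤ k) :
    (ser fun j => yy c b m r κ j n).coeff (k : ℤ) =
      c * (ser fun j => yy c b m r κ j n).coeff ((k : ℤ) - 2) +
      b * (phi F (ser fun j => yy c b m r κ j (n + 1))).coeff ((k : ℤ) - m) + r k n := by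
  obtain ⟨k, rfl⟩ : ∃ k', k = k' + 1 := ⟨k - 1, by omega⟩
  rw [ser_nat, phi_ser, yy]
  congr 2
  · by_cases h : 1 ≤ k
    · rw [if_pos h, show ((k + 1 : ℕ) : ℤ) - 2 = ((k - 1 : ℕ) : ℤ) by omega, ser_nat]
    · rw [if_neg h, ser_neg _ (by omega), mul_zero]
  · by_cases h : m ≤ k + 1 ∧ (k + 1 - m) % 2 = 0
    · rw [if_pos h, if_pos (by omega)]
      congr 2
      omega
    · rw [if_neg h, if_neg (by omega), mul_zero]

private theorem yy_const (c b : F) (κ : F) (k n n' : ℕ) :
    yy c b 0 (fun _ _ => 0) (fun _ => κ) k n = yy c b 0 (fun _ _ => 0) (fun _ => κ) k n' := by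
  induction k using Nat.strong_induction_on generalizing n n' with
  | _ k ih =>
    rcases k with _ | k
    · rw [yy, yy]
    · rw [yy, yy]
      congr 2
      · by_cases h : 1 ≤ k
        · rw [if_pos h, if_pos h, ih (k - 1) (by omega) n n']
        · rw [if_neg h, if_neg h]
      · by_cases h : 0 ≤ k + 1 ∧ (k + 1 - 0) % 2 = 0
        · rw [if_pos h, if_pos h, ih ((k + 1 - 0) / 2) (by omega) (n + 1) (n' + 1)]
        · rw [if_neg h, if_neg h]

private theorem ei_Q (a : F) : ei F (X ^ 2 - C a) = HahnSeries.single (-2) 1 - HahnSeries.single 0 a := by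
  unfold ei
  rw [map_sub, map_pow, coe_eval₂RingHom, eval₂_X, eval₂_C, HahnSeries.single_pow, HahnSeries.C_apply, one_pow]
  rfl

private theorem ez_Q (a : F) : ez F (X ^ 2 - C a) = HahnSeries.single 2 1 - HahnSeries.single 0 a := by
  unfold ez
  rw [map_sub, map_pow, coe_eval₂RingHom, eval₂_X, eval₂_C, HahnSeries.single_pow, HahnSeries.C_apply, one_pow]
  rfl

theorem exH (c : F) : ∃ H : LaurentSeries F, H ≠ 0 ∧ H.order = 0 ∧ H.coeff 0 = 1 ∧
    H * (1 - HahnSeries.single 2 c) = phi F H := by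
  have hfun : (fun j => yy c 1 0 (fun _ _ => 0) (fun _ => (1 : F)) j 1) =
      fun j => yy c 1 0 (fun _ _ => 0) (fun _ => (1 : F)) j 0 := by
    funext j
    exact yy_const c 1 1 j 1 0
  have h0 : (ser fun j => yy c 1 0 (fun _ _ => 0) (fun _ => (1 : F)) j 0).coeff 0 = 1 := by
    have h1 := ser_nat (fun j => yy c 1 0 (fun _ _ => 0) (fun _ => (1 : F)) j 0) 0
    rw [Nat.cast_zero] at h1
    rw [h1, yy]
  have hne : (ser fun j => yy c 1 0 (fun _ _ => 0) (fun _ => (1 : F)) j 0) ≠ 0 := by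
    intro h
    rw [h, HahnSeries.coeff_zero] at h0
    exact zero_ne_one h0
  refine ⟨ser fun j => yy c 1 0 (fun _ _ => 0) (fun _ => (1 : F)) j 0, hne, ?_, h0, ?_⟩
  · refine le_antisymm (HahnSeries.order_le_of_coeff_ne_zero (by rw [h0]; exact one_ne_zero)) ?_
    rw [HahnSeries.le_order_iff_forall hne]
    intro j hj
    exact ser_neg _ hj
  · ext k
    rw [mul_sub, mul_one, HahnSeries.coeff_sub, HahnSeries.coeff_mul_single]
    rcases lt_trichotomy k 0 with hk | hk | hk
    · rw [ser_neg _ hk, ser_neg _ (by omega), phi_ser, if_neg (by omega), zero_mul, sub_zero]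
    · subst hk
      rw [h0, ser_neg _ (by omega), phi_ser, if_pos (by omega), zero_mul, sub_zero]
      show (1 : F) = yy c 1 0 (fun _ _ => 0) (fun _ => (1 : F)) 0 0
      rw [yy]
    · obtain ⟨k', rfl⟩ : ∃ k' : ℕ, k = (k' : ℤ) := ⟨k.toNat, by omega⟩
      have h1 := yy_ser c 1 0 (fun _ _ => (0 : F)) (fun _ => (1 : F)) 0 k' (by omega)
      rw [zero_add, hfun, Nat.cast_zero, sub_zero] at h1
      rw [h1]
      ring

theorem exW (a : F) (e : ℕ → F) : ∃ W : ℕ → LaurentSeries F,
    (∀ n, W n * ei F (X ^ 2 - C a) = phi F (W (n + 1)) + HahnSeries.single (-1) (e n)) ∧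
    (∀ n k, k ≤ 0 → (W n).coeff k = 0) ∧ ∀ n, (W n).coeff 1 = e n := by
  have hz : ∀ n k, k ≤ 0 →
      (ser fun j => yy a 1 2 (fun k n => if k = 1 then e n else 0) (fun _ => 0) j n).coeff k = 0 := by
    intro n k hk
    rcases lt_or_eq_of_le hk with hk | hk
    · exact ser_neg _ hk
    · subst hk
      have h1 := ser_nat (fun j => yy a 1 2 (fun k n => if k = 1 then e n else 0) (fun _ => (0 : F)) j n) 0
      rw [Nat.cast_zero] at h1
      rw [h1, yy]
  have hp : ∀ n k, k ≤ 0 →
      (phi F (ser fun j => yy a 1 2 (fun k n => if k = 1 then e n else 0) (fun _ => 0) j n)).coeff k = 0 := by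
    intro n k hk
    rcases Int.even_or_odd' k with ⟨i, rfl | rfl⟩
    · rw [phi_even]
      exact hz n i (by omega)
    · exact phi_odd _ _
  refine ⟨fun n => ser fun j => yy a 1 2 (fun k n => if k = 1 then e n else 0) (fun _ => 0) j n, ?_, hz, ?_⟩
  · intro n
    dsimp only
    ext k
    rw [ei_Q, mul_sub, HahnSeries.coeff_sub, HahnSeries.coeff_mul_single, HahnSeries.coeff_mul_single,
      HahnSeries.coeff_add, sub_zero, mul_one, HahnSeries.coeff_single, show k - -2 = k + 2 by ring]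
    rcases lt_or_ge (k + 2) 1 with hk | hk
    · rw [hz n _ (by omega), hz n _ (by omega), hp (n + 1) _ (by omega), if_neg (by omega)]
      ring
    · obtain ⟨k', hk'⟩ : ∃ k' : ℕ, k + 2 = (k' : ℤ) := ⟨(k + 2).toNat, by omega⟩
      have h1 := yy_ser a 1 2 (fun k n => if k = 1 then e n else 0) (fun _ => (0 : F)) n k' (by omega)
      rw [← hk', show k + 2 - 2 = k by ring, Nat.cast_ofNat, show k + 2 - 2 = k by ring] at h1
      rw [h1]
      by_cases h2 : k = -1
      · rw [if_pos h2, if_pos (by omega)]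
        ring
      · rw [if_neg h2, if_neg (by omega)]
        ring
  · intro n
    have h1 := yy_ser a 1 2 (fun k n => if k = 1 then e n else 0) (fun _ => (0 : F)) n 1 le_rfl
    rw [Nat.cast_one] at h1
    dsimp only
    rw [h1, hz n _ (by norm_num), hp (n + 1) _ (by norm_num), if_pos rfl]
    ring

theorem exV (a : F) (ha : a ≠ 0) (e : ℕ → F) : ∃ V : ℕ → LaurentSeries F,
    (∀ n, V n * ez F (X ^ 2 - C a) = phi F (V (n + 1)) + HahnSeries.single 1 (e n)) ∧
    (∀ n k, k ≤ 0 → (V n).coeff k = 0) := by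
  have hz : ∀ n k, k ≤ 0 →
      (ser fun j => yy a⁻¹ (-a⁻¹) 0 (fun k n => if k = 1 then - a⁻¹ * e n else 0) (fun _ => 0) j n).coeff k = 0 := by
    intro n k hk
    rcases lt_or_eq_of_le hk with hk | hk
    · exact ser_neg _ hk
    · subst hk
      have h1 := ser_nat (fun j => yy a⁻¹ (-a⁻¹) 0 (fun k n => if k = 1 then - a⁻¹ * e n else 0) (fun _ => (0 : F)) j n) 0
      rw [Nat.cast_zero] at h1
      rw [h1, yy]
  have hp : ∀ n k, k ≤ 0 →
      (phi F (ser fun j => yy a⁻¹ (-a⁻¹) 0 (fun k n => if k = 1 then - a⁻¹ * e n else 0) (fun _ => 0) j n)).coeff k = 0 := by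
    intro n k hk
    rcases Int.even_or_odd' k with ⟨i, rfl | rfl⟩
    · rw [phi_even]
      exact hz n i (by omega)
    · exact phi_odd _ _
  refine ⟨fun n => ser fun j => yy a⁻¹ (-a⁻¹) 0 (fun k n => if k = 1 then - a⁻¹ * e n else 0) (fun _ => 0) j n, ?_, hz⟩
  intro n
  dsimp only
  ext k
  rw [ez_Q, mul_sub, HahnSeries.coeff_sub, HahnSeries.coeff_mul_single, HahnSeries.coeff_mul_single,
    HahnSeries.coeff_add, sub_zero, mul_one, HahnSeries.coeff_single]
  rcases lt_or_ge k 1 with hk | hk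
  · rw [hz n _ (by omega), hz n _ (by omega), hp (n + 1) _ (by omega), if_neg (by omega)]
    ring
  · obtain ⟨k', rfl⟩ : ∃ k' : ℕ, k = (k' : ℤ) := ⟨k.toNat, by omega⟩
    have h1 := yy_ser a⁻¹ (-a⁻¹) 0 (fun k n => if k = 1 then - a⁻¹ * e n else 0) (fun _ => (0 : F)) n k' (by omega)
    rw [Nat.cast_zero, sub_zero] at h1
    rw [h1]
    by_cases h2 : k' = 1
    · rw [if_pos h2, if_pos (by omega)]
      field_simp
      ring
    · rw [if_neg h2, if_neg (by omega)]
      field_simp
      ring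

end Pool.Agent.H35.FF
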