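import Pool.Agent.H35.FF.Un

/-!
# THEOREM FF: the final statement
-/

set_option autoImplicit false

open Polynomial

namespace Pool.Agent.H35.FF

private theorem eval_form {F : Type} [Field F] (g : Matrix (Fin 4) (Fin 4) (LaurentSeries F))
    (v : Fin 4 → LaurentSeries F) : MvPolynomial.eval v (form g) = ∏ i, ∑ j, g i j * v j := by
  rw [form, map_prod]
  refine Finset.prod_congr rfl fun i _ => ?_
  rw [map_sum]
  refine Finset.sum_congr rfl fun j _ => ?_
  rw [map_mul, MvPolynomial.eval_C, MvPolynomial.eval_X]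

/-- the form of a system is bounded -/
private theorem bounded_of {F : Type} [Field F] (θ : LaurentSeries F →+* LaurentSeries F)
    (hθ : ∀ p : F[X], θ (et F p) = ei F p)
    (hord : ∀ f : LaurentSeries F, f ≠ 0 → (θ f).order = f.order)
    (a : F) (ha : ¬ IsSquare a) (e : ℕ → F) (he : ∀ n, e n ≠ 0)
    (Z Y : Fin 2 → ℕ → LaurentSeries F) (h : Sys a e Z Y) :
    Bounded F (form ((gm Z Y).map θ)) := by
  obtain ⟨hd1, hd2⟩ := gm_det a e Z Y h
  have hdet : ((gm Z Y).map θ).det = θ (gm Z Y).det := (RingHom.map_det θ (gm Z Y)).symm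
  refine ⟨(gm Z Y).map θ, ?_, rfl, fun x hx => ?_⟩
  · rw [hdet]
    exact fun h0 => hd1 ((map_eq_zero θ).1 h0)
  · obtain ⟨h1, h2⟩ := gm_val a ha e he Z Y h x hx
    have h3 : MvPolynomial.eval (fun j => ei F (x j)) (form ((gm Z Y).map θ)) =
        θ (∏ i, ∑ j, gm Z Y i j * et F (x j)) := by
      rw [eval_form, map_prod]
      refine Finset.prod_congr rfl fun i _ => ?_
      rw [map_sum]
      refine Finset.sum_congr rfl fun j _ => ?_
      rw [map_mul, hθ]
      rfl
    rw [h3, hdet, hord _ hd1, hd2, hord _ h1]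
    refine ⟨fun h0 => h1 ((map_eq_zero θ).1 h0), by linarith⟩

/-- the version with a non-square in any field -/
theorem ff_one (F : Type) [Field F] (h2 : (2 : F) ≠ 0) (a : F) (ha : ¬ IsSquare a) :
    ∃ P, Bounded F P ∧ ¬ Integral F P := by
  have ha0 : a ≠ 0 := fun h0 => ha ⟨0, by rw [h0, mul_zero]⟩
  obtain ⟨θ, t1, t2, t3⟩ := theta_exists F
  obtain ⟨Z, Y, hs, hs0, -⟩ := sys_exists h2 a ha0 (fun _ => 1)
  refine ⟨form ((gm Z Y).map θ), bounded_of θ (theta_et F θ t1 t2) t3 a ha (fun _ => 1)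
    (fun _ => one_ne_zero) Z Y hs, ?_⟩
  rintro ⟨c, G, hc, hcG⟩
  exact not_integral h2 a (fun _ => 1) (fun _ => one_ne_zero) Z Y hs hs0 θ (theta_et F θ t1 t2)
    c G hc hcG

theorem ff (F : Type) [Field F] [Finite F] (h2 : (2 : F) ≠ 0)
    (f : ℕ → MvPolynomial (Fin 4) (LaurentSeries F)) :
    ∃ P, Bounded F P ∧ ¬ Integral F P ∧ ∀ n, ¬ Equivalent P (f n) := by
  have : Fintype F := Fintype.ofFinite F
  obtain ⟨a, ha⟩ : ∃ a : F, ¬ IsSquare a := by
    refine FiniteField.exists_nonsquare ?_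
    intro hch
    exact h2 (by
      have h3 : ((ringChar F : ℕ) : F) = 0 := ringChar.Nat.cast_ringChar
      rw [hch] at h3
      exact_mod_cast h3)
  have ha0 : a ≠ 0 := fun h0 => ha ⟨0, by rw [h0, mul_zero]⟩
  obtain ⟨θ, t1, t2, t3⟩ := theta_exists F
  let e : (ℕ → Bool) → ℕ → F := fun b n => if b n then 1 else -1
  have he : ∀ b n, e b n ≠ 0 := by
    intro b n
    show (if b n then (1 : F) else -1) ≠ 0
    split_ifs
    · exact one_ne_zero
    · exact neg_ne_zero.2 one_ne_zero
  choose Z Y hs hs0 hs1 using fun b => sys_exists h2 a ha0 (e b)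
  let p : (ℕ → Bool) → MvPolynomial (Fin 4) (LaurentSeries F) :=
    fun b => form ((gm (Z b) (Y b)).map θ)
  have hU : ∀ b n, (Z b 0 n + Z b 1 n) * ei F (X ^ 2 - C a) =
      phi F (Z b 0 (n + 1) + Z b 1 (n + 1)) + HahnSeries.single (-1) (2 * e b n) := by
    intro b n
    have h1 := (hs b).eqZ 0 n
    have h3 := (hs b).eqZ 1 n
    have h4 : (HahnSeries.single (-1) (2 * e b n) : LaurentSeries F) =
        HahnSeries.single (-1) (e b n) + HahnSeries.single (-1) (e b n) := by
      rw [← HahnSeries.single_add, ← two_mul]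
    rw [add_mul, h1, h3, map_add, h4]
    ring
  have hinj : Function.Injective p := by
    intro b b' hbb
    have h1 := sum_of_form θ (Z b) (Y b) (Z b') (Y b') hbb
    have h3 := seq_inj h2 a (e b) (e b') (fun n => Z b 0 n + Z b 1 n)
      (fun n => Z b' 0 n + Z b' 1 n) (hU b) (hU b') (hs1 b) (hs1 b') h1
    funext n
    have h4 : (if b n then (1 : F) else -1) = if b' n then 1 else -1 := congrFun h3 n
    have h5 : (1 : F) ≠ -1 := by
      intro h6
      apply h2
      have h7 : (2 : F) = 1 + 1 := by norm_num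
      rw [h7]
      nth_rewrite 2 [h6]
      ring
    cases hb : b n <;> cases hb' : b' n
    · rfl
    · rw [hb, hb'] at h4
      simp only [Bool.false_eq_true, if_false, if_true] at h4
      exact absurd h4.symm h5
    · rw [hb, hb'] at h4
      simp only [Bool.false_eq_true, if_false, if_true] at h4
      exact absurd h4 h5
    · rfl
  have hval : ∀ b, MvPolynomial.eval ![0, 0, 1, 0] (p b) = 1 := by
    intro b
    show MvPolynomial.eval ![0, 0, 1, 0] (form ((gm (Z b) (Y b)).map θ)) = 1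
    rw [eval_form]
    simp [Fin.prod_univ_succ, Fin.sum_univ_succ, gm]
  obtain ⟨b, hb⟩ := unc p hinj hval f
  refine ⟨p b, bounded_of θ (theta_et F θ t1 t2) t3 a ha (e b) (he b) (Z b) (Y b) (hs b), ?_, hb⟩
  rintro ⟨c, G, hc, hcG⟩
  exact not_integral h2 a (e b) (he b) (Z b) (Y b) (hs b) (hs0 b) θ (theta_et F θ t1 t2)
    c G hc hcG

end Pool.Agent.H35.FF
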