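import Pool.Agent.H35.FF.Pe

/-!
# THEOREM FF: the series at infinity are not rational

`U_n (s⁻² - a) = φ(U_(n+1)) + 2 e_n s⁻¹`, `U_n` without terms `s^k`, `k ≤ 0`. If `B ≠ 0` and `B(s⁻¹) U_n = A(s⁻¹)` then False. PROOF: strong induction on `natDegree B`, all `n`. `φ(U_(n+1)) B(s⁻¹) = A'(s⁻¹)`, `A' = A (X² - a) - 2 e_n X B`. `split` for `B` and `A'`, `par_zero`: `U_(n+1) B_i = A'_i` for `i = 0, 1`; one `B_i` is not zero and `2 natDegree B_i ≤ natDegree B`. If `natDegree B ≥ 1` use induction. If `natDegree B = 0`: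
`B = c`, `U_n = c⁻¹ A(s⁻¹)`; `A(s⁻¹)` has only terms `s^k`, `k ≤ 0`, so `U_n = 0`, `φ(U_(n+1)) = - 2 e_n s⁻¹`: the coefficient at `-1` gives `2 e_n = 0`.
-/

set_option autoImplicit false

open Polynomial

namespace Pool.Agent.H35.FF

variable {F : Type} [Field F]

private theorem nr_X : ei F X = HahnSeries.single (-1) 1 := by
  rw [ei, coe_eval₂RingHom, eval₂_X]

private theorem nr_C (c : F) : ei F (C c) = HahnSeries.C c := by
  rw [ei, coe_eval₂RingHom, eval₂_C]

private theorem nr_CX (c : F) : ei F (C c * X) = HahnSeries.single (-1) c := by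
  rw [map_mul, nr_C, nr_X, HahnSeries.C_apply, HahnSeries.single_mul_single]
  simp

theorem not_rational (h2 : (2 : F) ≠ 0) (a : F) (e : ℕ → F) (he : ∀ n, e n ≠ 0)
    (U : ℕ → LaurentSeries F)
    (hU : ∀ n, U n * ei F (X ^ 2 - C a) = phi F (U (n + 1)) + HahnSeries.single (-1) (2 * e n))
    (hU0 : ∀ n k, k ≤ 0 → (U n).coeff k = 0) (n : ℕ) (A B : F[X]) (hB : B ≠ 0) :
    ei F B * U n ≠ ei F A := by
  suffices H : ∀ N : ℕ, ∀ (n : ℕ) (A B : F[X]), B.natDegree = N → B ≠ 0 → ei F B * U n ≠ ei F A from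
    H _ n A B rfl hB
  intro N
  induction N using Nat.strong_induction_on with
  | _ N ih =>
    intro n A B hN hB h
    rcases Nat.eq_zero_or_pos N with h0 | h0
    · obtain ⟨c, hc⟩ : ∃ c, B = C c := ⟨B.coeff 0, eq_C_of_natDegree_eq_zero (hN.trans h0)⟩
      have hc0 : c ≠ 0 := by
        rintro rfl
        exact hB (by rw [hc, C_0])
      have hz : U n = 0 := by
        ext k
        rcases le_or_gt k 0 with hk | hk
        · exact hU0 n k hk
        · have h1 : (ei F B * U n).coeff k = 0 := by rw [h, ei_coeff_pos A k hk]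
          rw [hc, nr_C, HahnSeries.C_mul_eq_smul, HahnSeries.coeff_smul, smul_eq_mul] at h1
          rw [HahnSeries.coeff_zero]
          exact (mul_eq_zero.1 h1).resolve_left hc0
      have h3 := congrArg (fun f : LaurentSeries F => f.coeff (-1)) (hU n)
      simp only [hz, zero_mul, HahnSeries.coeff_add, HahnSeries.coeff_zero,
        HahnSeries.coeff_single_same] at h3
      have h4 : (phi F (U (n + 1))).coeff (-1) = 0 := by
        have := phi_odd (U (n + 1)) (-1)
        norm_num at this
        exact this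
      rw [h4, zero_add] at h3
      exact (mul_ne_zero h2 (he n)) h3.symm
    · have h1 : ei F B * phi F (U (n + 1)) = ei F (A * (X ^ 2 - C a) - C (2 * e n) * X * B) := by
        have h2 := hU n
        have h3 : ei F (A * (X ^ 2 - C a) - C (2 * e n) * X * B)
            = ei F A * ei F (X ^ 2 - C a) - ei F (C (2 * e n) * X) * ei F B := by
          rw [map_sub, map_mul, map_mul]
        rw [h3, ← h, mul_assoc, h2, nr_CX]
        ring
      obtain ⟨B₀, B₁, hB', hd₀, hd₁⟩ := split B
      obtain ⟨A₀, A₁, hA', -, -⟩ := split (A * (X ^ 2 - C a) - C (2 * e n) * X * B)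
      have e1 : ei F B = phi F (ei F B₀) + HahnSeries.single (-1) 1 * phi F (ei F B₁) := by
        rw [← ei_expand, ← ei_expand, ← nr_X, ← map_mul, ← map_add, ← hB']
      have e2 : ei F (A * (X ^ 2 - C a) - C (2 * e n) * X * B)
          = phi F (ei F A₀) + HahnSeries.single (-1) 1 * phi F (ei F A₁) := by
        rw [← ei_expand, ← ei_expand, ← nr_X, ← map_mul, ← map_add, ← hA']
      have e3 : phi F (ei F B₀ * U (n + 1) - ei F A₀) +
          HahnSeries.single (-1) 1 * phi F (ei F B₁ * U (n + 1) - ei F A₁) = 0 := by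
        rw [e1, e2] at h1
        rw [map_sub, map_sub, map_mul, map_mul]
        linear_combination h1
      obtain ⟨g0, g1⟩ := par_zero (-1) (Or.inr rfl) _ _ e3
      by_cases hb : B₀ = 0
      · have hb1 : B₁ ≠ 0 := by
          rintro rfl
          apply hB
          rw [hB', hb]
          simp
        exact ih B₁.natDegree (by omega) (n + 1) A₁ B₁ rfl hb1 (sub_eq_zero.1 g1)
      · exact ih B₀.natDegree (by omega) (n + 1) A₀ B₀ rfl hb (sub_eq_zero.1 g0)

end Pool.Agent.H35.FF
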