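import Pool.Agent.H35.FF.Po

/-!
# THEOREM FF: the change of variable `1/X = s/(1+s²)`

There is a ring homomorphism `θ : F((s)) → F((u))` with `θ(s)⁻¹ + θ(s) = u⁻¹`, which preserves constants and orders. PROOF: `c(x) = ∑ catalan n x^n` satisfies `c = 1 + x c²` (`PowerSeries.catalanSeries`, `catalanSeries_sq_mul_X_add_one`, mapped to `F`), `σ := u c(u²)` (`PowerSeries.evalNegHom`-like; `c(u²)` by `PowerSeries.mk` with `catalan (n/2)` for `n` even, or by `phi`), `σ = u (1 + σ²)`, `σ` of order `1`. `θ₀ := PowerSeries.substAlgHom` (`HasSubst.of_constantCoeff_zero'`) from `F⟦s⟧` to `F⟦u⟧`, composed with `F⟦u⟧ → F((u))`, maps `s` to `σ ≠ 0` and units to units, so nonzero elements to nonzero elements (`f = X^n * unit`); extend to `F((s))` (`IsFractionRing.lift` or `IsLocalization.lift`). Order: `f = s^n * (unit of F⟦s⟧)`, `θ f = σ^n * (unit of F⟦u⟧)`.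
-/

set_option autoImplicit false

open Polynomial

namespace Pool.Agent.H35.FF

/-- `D = c(u²)`, `c` the Catalan series -/
private theorem cat_exists (F : Type) [Field F] :
    ∃ D : PowerSeries F, D ^ 2 * PowerSeries.X ^ 2 + 1 = D := by
  have h := congrArg (PowerSeries.map (Nat.castRingHom F)) PowerSeries.catalanSeries_sq_mul_X_add_one
  rw [map_add, map_mul, map_pow, map_one, PowerSeries.map_X] at h
  have hs : PowerSeries.HasSubst (PowerSeries.X ^ 2 : PowerSeries F) := PowerSeries.HasSubst.X_pow two_ne_zero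
  have h2 := congrArg (PowerSeries.substAlgHom (R := F) hs) h
  rw [map_add, map_mul, map_pow, map_one, PowerSeries.substAlgHom_X hs] at h2
  exact ⟨_, h2⟩

private theorem order_unit {F : Type} [Field F] (x : (PowerSeries F)ˣ) :
    (HahnSeries.ofPowerSeries ℤ F (x : PowerSeries F)).order = 0 := by
  have h1 : HahnSeries.ofPowerSeries ℤ F (x : PowerSeries F) * HahnSeries.ofPowerSeries ℤ F ((x⁻¹ : (PowerSeries F)ˣ) : PowerSeries F) = 1 := by
    rw [← map_mul, Units.mul_inv, map_one]
  have h0 : ∀ y : PowerSeries F, HahnSeries.ofPowerSeries ℤ F y ≠ 0 → 0 ≤ (HahnSeries.ofPowerSeries ℤ F y).order := by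
    intro y hy
    by_contra hlt
    rw [not_le] at hlt
    have h2 : (HahnSeries.ofPowerSeries ℤ F y).coeff (HahnSeries.ofPowerSeries ℤ F y).order ≠ 0 :=
      HahnSeries.coeff_order_eq_zero.not.2 hy
    apply h2
    rw [PowerSeries.coeff_coe, if_pos hlt]
  have hx : HahnSeries.ofPowerSeries ℤ F (x : PowerSeries F) ≠ 0 := left_ne_zero_of_mul_eq_one h1
  have hy : HahnSeries.ofPowerSeries ℤ F ((x⁻¹ : (PowerSeries F)ˣ) : PowerSeries F) ≠ 0 := right_ne_zero_of_mul_eq_one h1
  have h3 := HahnSeries.order_mul hx hy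
  rw [h1, HahnSeries.order_one] at h3
  have h4 := h0 _ hx
  have h5 := h0 _ hy
  omega

/-- a Laurent series which is not zero is `s^n` times a unit of the power series -/
private theorem part_unit {F : Type} [Field F] {f : LaurentSeries F} (hf : f ≠ 0) :
    ∃ x : (PowerSeries F)ˣ, f = HahnSeries.single f.order 1 * HahnSeries.ofPowerSeries ℤ F (x : PowerSeries F) := by
  have hu : IsUnit (LaurentSeries.powerSeriesPart f) := by
    rw [PowerSeries.isUnit_iff_constantCoeff, ← PowerSeries.coeff_zero_eq_constantCoeff_apply,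
      LaurentSeries.powerSeriesPart_coeff, isUnit_iff_ne_zero, Nat.cast_zero, add_zero]
    exact HahnSeries.coeff_order_eq_zero.not.2 hf
  obtain ⟨x, hx⟩ := hu
  exact ⟨x, by rw [hx, LaurentSeries.single_order_mul_powerSeriesPart]⟩

theorem theta_exists (F : Type) [Field F] : ∃ θ : LaurentSeries F →+* LaurentSeries F,
    (∀ c : F, θ (HahnSeries.C c) = HahnSeries.C c) ∧
    θ (HahnSeries.single (-1) 1 + HahnSeries.single 1 1) = HahnSeries.single (-1) 1 ∧
    ∀ f : LaurentSeries F, f ≠ 0 → (θ f).order = f.order := by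
  obtain ⟨D, hD⟩ := cat_exists F
  have hD1 : PowerSeries.constantCoeff D = 1 := by
    rw [← hD, map_add, map_mul, map_pow, map_pow, PowerSeries.constantCoeff_X, map_one]
    simp
  have hDu : IsUnit D := by
    rw [PowerSeries.isUnit_iff_constantCoeff, hD1]
    exact isUnit_one
  obtain ⟨w, hw⟩ := hDu
  have hs : PowerSeries.HasSubst (PowerSeries.X * D : PowerSeries F) := by
    refine PowerSeries.HasSubst.of_constantCoeff_zero' ?_
    rw [map_mul, PowerSeries.constantCoeff_X, zero_mul]
  set T : PowerSeries F →ₐ[F] PowerSeries F := PowerSeries.substAlgHom (R := F) hs with hT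
  have hTX : T PowerSeries.X = PowerSeries.X * D := PowerSeries.substAlgHom_X hs
  set g : PowerSeries F →+* LaurentSeries F := (HahnSeries.ofPowerSeries ℤ F).comp (T : PowerSeries F →+* PowerSeries F) with hg
  have hgX : g PowerSeries.X = HahnSeries.single 1 1 * HahnSeries.ofPowerSeries ℤ F (w : PowerSeries F) := by
    rw [hg, RingHom.comp_apply, RingHom.coe_coe, hTX, map_mul, HahnSeries.ofPowerSeries_X, hw]
  have hgu : ∀ x : (PowerSeries F)ˣ, ∃ y : (PowerSeries F)ˣ, g x = HahnSeries.ofPowerSeries ℤ F (y : PowerSeries F) := by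
    intro x
    refine ⟨Units.map (T : PowerSeries F →* PowerSeries F) x, ?_⟩
    rw [hg, RingHom.comp_apply]
    rfl
  have hun : ∀ x : (PowerSeries F)ˣ, HahnSeries.ofPowerSeries ℤ F (x : PowerSeries F) ≠ 0 := by
    intro x
    exact (x.isUnit.map (HahnSeries.ofPowerSeries ℤ F)).ne_zero
  have hs1 : (HahnSeries.single (1 : ℤ) (1 : F)) ≠ 0 := by
    intro h
    rw [HahnSeries.single_eq_zero_iff] at h
    exact one_ne_zero h
  have hgX0 : g PowerSeries.X ≠ 0 := by
    rw [hgX]
    exact mul_ne_zero hs1 (hun w)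
  have hginj : Function.Injective g := by
    rw [injective_iff_map_eq_zero]
    intro x hx
    by_contra hne
    have hf : HahnSeries.ofPowerSeries ℤ F x ≠ 0 := by
      intro h
      exact hne (HahnSeries.ofPowerSeries_injective (by rw [h, map_zero]))
    obtain ⟨y, hy⟩ := part_unit hf
    have hn : 0 ≤ (HahnSeries.ofPowerSeries ℤ F x).order := by
      by_contra hlt
      rw [not_le] at hlt
      apply (HahnSeries.coeff_order_eq_zero.not.2 hf : (HahnSeries.ofPowerSeries ℤ F x).coeff (HahnSeries.ofPowerSeries ℤ F x).order ≠ 0)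
      rw [PowerSeries.coeff_coe, if_pos hlt]
    obtain ⟨n, hn'⟩ := Int.eq_ofNat_of_zero_le hn
    have hxy : x = PowerSeries.X ^ n * (y : PowerSeries F) := by
      apply HahnSeries.ofPowerSeries_injective (Γ := ℤ)
      rw [map_mul, map_pow, HahnSeries.ofPowerSeries_X, ← RatFunc.single_one_eq_pow, ← hn']
      exact hy
    obtain ⟨y', hy'⟩ := hgu y
    rw [hxy, map_mul, map_pow, hy'] at hx
    exact mul_ne_zero (pow_ne_zero n hgX0) (hun y') hx
  set θ : LaurentSeries F →+* LaurentSeries F := IsFractionRing.lift hginj with hθ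
  have hθg : ∀ x : PowerSeries F, θ (HahnSeries.ofPowerSeries ℤ F x) = g x := by
    intro x
    have h := IsFractionRing.lift_algebraMap hginj x (K := LaurentSeries F)
    rw [LaurentSeries.coe_algebraMap] at h
    exact h
  have hθs : θ (HahnSeries.single 1 1) = HahnSeries.single 1 1 * HahnSeries.ofPowerSeries ℤ F (w : PowerSeries F) := by
    rw [← hgX, ← hθg, HahnSeries.ofPowerSeries_X]
  have hinv : (HahnSeries.single (-1 : ℤ) (1 : F)) = (HahnSeries.single (1 : ℤ) (1 : F))⁻¹ := by
    rw [HahnSeries.inv_single, inv_one]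
  refine ⟨θ, ?_, ?_, ?_⟩
  · intro c
    rw [← HahnSeries.ofPowerSeries_C, hθg, hg, RingHom.comp_apply]
    have h : T (PowerSeries.C c) = PowerSeries.C c := by
      have h := T.commutes c
      rw [PowerSeries.algebraMap_apply] at h
      exact h
    rw [RingHom.coe_coe, h]
  · rw [hinv, map_add, map_inv₀, hθs]
    have h3 : HahnSeries.ofPowerSeries ℤ F (w : PowerSeries F) = HahnSeries.ofPowerSeries ℤ F (w : PowerSeries F) ^ 2 * (HahnSeries.single (1 : ℤ) (1 : F)) ^ 2 + 1 := by
      have h := congrArg (HahnSeries.ofPowerSeries ℤ F) hD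
      rw [map_add, map_mul, map_pow, map_pow, map_one, HahnSeries.ofPowerSeries_X, ← hw] at h
      exact h.symm
    have h4 := hun w
    generalize HahnSeries.ofPowerSeries ℤ F (w : PowerSeries F) = W at h3 h4 ⊢
    generalize (HahnSeries.single (1 : ℤ) (1 : F)) = S at h3 hs1 ⊢
    field_simp
    linear_combination (-1 : LaurentSeries F) * h3
  · intro f hf
    obtain ⟨x, hx⟩ := part_unit hf
    obtain ⟨y, hy⟩ := hgu x
    have h5 : θ f = HahnSeries.single f.order 1 * HahnSeries.ofPowerSeries ℤ F ((w ^ f.order * y : (PowerSeries F)ˣ) : PowerSeries F) := by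
      have h6 : θ (HahnSeries.single f.order 1) = HahnSeries.single f.order 1 * HahnSeries.ofPowerSeries ℤ F ((w ^ f.order : (PowerSeries F)ˣ) : PowerSeries F) := by
        rw [RatFunc.single_zpow, map_zpow₀, hθs, mul_zpow]
        congr 1
        have h7 := map_zpow (Units.map (HahnSeries.ofPowerSeries ℤ F : PowerSeries F →* LaurentSeries F)) w f.order
        have h8 := congrArg (Units.val) h7
        rw [Units.val_zpow_eq_zpow_val] at h8
        exact h8.symm
      conv_lhs => rw [hx]
      rw [map_mul, h6, hθg, hy, Units.val_mul, map_mul, mul_assoc]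
    rw [h5, HahnSeries.order_mul (by
      intro h
      rw [HahnSeries.single_eq_zero_iff] at h
      exact one_ne_zero h) (hun _), order_unit, HahnSeries.order_single one_ne_zero, add_zero]

/-- `θ ∘ et = ei` -/
theorem theta_et (F : Type) [Field F] (θ : LaurentSeries F →+* LaurentSeries F)
    (h1 : ∀ c : F, θ (HahnSeries.C c) = HahnSeries.C c)
    (h2 : θ (HahnSeries.single (-1) 1 + HahnSeries.single 1 1) = HahnSeries.single (-1) 1)
    (p : F[X]) : θ (et F p) = ei F p := by
  have h : (θ.comp (et F)) = ei F := by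
    refine Polynomial.ringHom_ext (fun c => ?_) ?_
    · rw [RingHom.comp_apply]
      simp only [et, ei, coe_eval₂RingHom, eval₂_C]
      exact h1 c
    · rw [RingHom.comp_apply]
      simp only [et, ei, coe_eval₂RingHom, eval₂_X]
      exact h2
  rw [← h, RingHom.comp_apply]

end Pool.Agent.H35.FF
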