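import Pool.Agent.H35.FF.Mx
import Pool.Agent.H35.FF.Nr
import Pool.Agent.H35.FF.Th

/-!
# THEOREM FF: the sum of the two series at infinity can be read off from the product; not integral

`P = form (θ gm)`. Let `P = C c * map (ei F) G`. Substitute `(1, 0, T, 0)` and `(1, 0, 0, T)` (`MvPolynomial.aeval` into `(LaurentSeries F)[X]`): the coefficients of `T^3` are `θ(Z_0 + Z_1 + Y_0 + Y_1)` and `θ(t (Y_0 + Y_1) + t⁻¹ (Z_0 + Z_1))`, the one of `T^4` in the first is `1`; all of them are `c ei(g)` with `g` a coefficient of a polynomial over `F[X]` (`MvPolynomial.map` and `aeval` commute). `sum_of_form`: so `form (θ g) = form (θ g')` implies `(Z_0 + Z_1)(t - t⁻¹) = (Z'_0 + Z'_1)(t - t⁻¹)`.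
`not_integral`: `ei(g₄) c = 1`, `c ei(g₃) = θ(Z_+ + Y_+)`, `c ei(h₃) = θ(t Y_+ + t⁻¹ Z_+)`, so `ei(g₄) θ(Z_+ (t - t⁻¹)) = θ(t) ei(g₃) - ei(h₃)`, `ei = θ ∘ et` (`theta_et`), `θ` injective: `et(g₄) Z_+ (t - t⁻¹) = t et(g₃) - et(h₃)`; multiply with `t^(k+1)`, `clear`: `ei(B) Z_+ = ei(A)`, `B = G₄ (X² - 1) ≠ 0`: against `not_rational` (`U n = Z 0 n + Z 1 n`).
-/

set_option autoImplicit false

open Polynomial

namespace Pool.Agent.H35.FF

variable {F : Type} [Field F]

private lemma ev_form (g : Matrix (Fin 4) (Fin 4) (LaurentSeries F)) (a : Fin 4 → (LaurentSeries F)[X]) :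
    MvPolynomial.eval₂Hom Polynomial.C a (form g) = ∏ i, ∑ j, Polynomial.C (g i j) * a j := by
  simp only [form, map_prod, map_sum, map_mul, MvPolynomial.eval₂Hom_C, MvPolynomial.eval₂Hom_X']

private lemma ev_map (c : LaurentSeries F) (G : MvPolynomial (Fin 4) F[X]) (b : Fin 4 → F[X][X]) :
    MvPolynomial.eval₂Hom Polynomial.C (fun i => (b i).map (ei F))
      (MvPolynomial.C c * MvPolynomial.map (ei F) G) =
      Polynomial.C c * (MvPolynomial.eval₂Hom Polynomial.C b G).map (ei F) := by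
  rw [map_mul, MvPolynomial.eval₂Hom_C]
  congr 1
  have h : (MvPolynomial.eval₂Hom Polynomial.C (fun i => (b i).map (ei F))).comp (MvPolynomial.map (ei F)) =
      (Polynomial.mapRingHom (ei F)).comp (MvPolynomial.eval₂Hom Polynomial.C b) := by
    apply MvPolynomial.ringHom_ext
    · intro r
      simp
    · intro i
      simp
  exact congrArg (fun f => f G) h

private lemma co4 (a p b q c r d v : LaurentSeries F) :
    ((C a + C p * X) * (C b + C q * X) * (C c + C r * X) * (C d + C v * X) : (LaurentSeries F)[X]).coeff 4 =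
      p * q * r * v ∧
    ((C a + C p * X) * (C b + C q * X) * (C c + C r * X) * (C d + C v * X) : (LaurentSeries F)[X]).coeff 3 =
      a * q * r * v + p * b * r * v + p * q * c * v + p * q * r * d := by
  have h : ((C a + C p * X) * (C b + C q * X) * (C c + C r * X) * (C d + C v * X) : (LaurentSeries F)[X]) =
      C (p * q * r * v) * X ^ 4 + C (a * q * r * v + p * b * r * v + p * q * c * v + p * q * r * d) * X ^ 3 +
      C (a * b * r * v + a * q * c * v + a * q * r * d + p * b * c * v + p * b * r * d + p * q * c * d) * X ^ 2 +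
      C (p * b * c * d + a * q * c * d + a * b * r * d + a * b * c * v) * X + C (a * b * c * d) := by
    simp only [C_add, C_mul]
    ring
  rw [h]
  constructor
  · simp only [coeff_add, coeff_C_mul_X_pow, coeff_C_mul_X, coeff_C]
    norm_num
  · simp only [coeff_add, coeff_C_mul_X_pow, coeff_C_mul_X, coeff_C]
    norm_num

private lemma ev1_form (θ : LaurentSeries F →+* LaurentSeries F) (Z Y : Fin 2 → ℕ → LaurentSeries F) :
    MvPolynomial.eval₂Hom Polynomial.C ![1, 0, X, 0] (form ((gm Z Y).map θ)) =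
      (C (θ (Z 0 0)) + C 1 * X) * (C (θ (Z 1 0)) + C 1 * X) * (C (θ (Y 0 0)) + C 1 * X) *
        (C (θ (Y 1 0)) + C 1 * X) := by
  rw [ev_form]
  simp [gm, Fin.prod_univ_four, Fin.sum_univ_four]

private lemma ev2_form (θ : LaurentSeries F →+* LaurentSeries F) (Z Y : Fin 2 → ℕ → LaurentSeries F) :
    MvPolynomial.eval₂Hom Polynomial.C ![1, 0, 0, X] (form ((gm Z Y).map θ)) =
      (C (θ (Z 0 0)) + C (θ (HahnSeries.single (-1) 1)) * X) * (C (θ (Z 1 0)) + C (θ (HahnSeries.single (-1) 1)) * X) *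
        (C (θ (Y 0 0)) + C (θ (HahnSeries.single 1 1)) * X) * (C (θ (Y 1 0)) + C (θ (HahnSeries.single 1 1)) * X) := by
  rw [ev_form]
  simp [gm, Fin.prod_univ_four, Fin.sum_univ_four]

private lemma ts : (HahnSeries.single (-1) 1 : LaurentSeries F) * HahnSeries.single 1 1 = 1 := by
  rw [HahnSeries.single_mul_single]
  simp

private lemma t_ne_s : (HahnSeries.single (-1) 1 : LaurentSeries F) - HahnSeries.single 1 1 ≠ 0 := by
  intro h
  have h1 := congrArg (fun f : LaurentSeries F => f.coeff 1) h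
  simp [HahnSeries.coeff_single_of_ne] at h1

/-- the three coefficients -/
private lemma coefs (θ : LaurentSeries F →+* LaurentSeries F) (Z Y : Fin 2 → ℕ → LaurentSeries F) :
    (MvPolynomial.eval₂Hom Polynomial.C ![1, 0, X, 0] (form ((gm Z Y).map θ))).coeff 4 = 1 ∧
    (MvPolynomial.eval₂Hom Polynomial.C ![1, 0, X, 0] (form ((gm Z Y).map θ))).coeff 3 =
      θ ((Z 0 0 + Z 1 0) + (Y 0 0 + Y 1 0)) ∧
    (MvPolynomial.eval₂Hom Polynomial.C ![1, 0, 0, X] (form ((gm Z Y).map θ))).coeff 3 =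
      θ (HahnSeries.single 1 1 * (Z 0 0 + Z 1 0) + HahnSeries.single (-1) 1 * (Y 0 0 + Y 1 0)) := by
  refine ⟨?_, ?_, ?_⟩
  · rw [ev1_form, (co4 _ _ _ _ _ _ _ _).1]
    ring
  · rw [ev1_form, (co4 _ _ _ _ _ _ _ _).2]
    simp only [map_add]
    ring
  · rw [ev2_form, (co4 _ _ _ _ _ _ _ _).2]
    have h : θ (HahnSeries.single (-1) 1) * θ (HahnSeries.single 1 1) = 1 := by
      rw [← map_mul θ, ts, map_one θ]
    simp only [map_add, map_mul]
    linear_combination (θ (Z 0 0) * θ (HahnSeries.single 1 1) + θ (Z 1 0) * θ (HahnSeries.single 1 1) +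
      θ (Y 0 0) * θ (HahnSeries.single (-1) 1) + θ (Y 1 0) * θ (HahnSeries.single (-1) 1)) * h

theorem sum_of_form (θ : LaurentSeries F →+* LaurentSeries F)
    (Z Y Z' Y' : Fin 2 → ℕ → LaurentSeries F)
    (h : form ((gm Z Y).map θ) = form ((gm Z' Y').map θ)) :
    Z 0 0 + Z 1 0 = Z' 0 0 + Z' 1 0 := by
  obtain ⟨-, h1, h2⟩ := coefs θ Z Y
  obtain ⟨-, h1', h2'⟩ := coefs θ Z' Y'
  rw [h, h1'] at h1
  rw [h, h2'] at h2
  have e1 := θ.injective h1
  have e2 := θ.injective h2
  have e3 : ((HahnSeries.single (-1) 1 : LaurentSeries F) - HahnSeries.single 1 1) *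
      ((Z 0 0 + Z 1 0) - (Z' 0 0 + Z' 1 0)) = 0 := by
    linear_combination (-HahnSeries.single (-1) 1 : LaurentSeries F) * e1 + e2
  rcases mul_eq_zero.mp e3 with h3 | h3
  · exact absurd h3 t_ne_s
  · exact sub_eq_zero.mp h3

theorem not_integral (h2 : (2 : F) ≠ 0) (a : F) (e : ℕ → F) (he : ∀ n, e n ≠ 0)
    (Z Y : Fin 2 → ℕ → LaurentSeries F) (h : Sys a e Z Y)
    (hU0 : ∀ n k, k ≤ 0 → (Z 0 n + Z 1 n).coeff k = 0)
    (θ : LaurentSeries F →+* LaurentSeries F) (h1 : ∀ p : F[X], θ (et F p) = ei F p)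
    (c : LaurentSeries F) (G : MvPolynomial (Fin 4) F[X]) (hc : c ≠ 0) :
    form ((gm Z Y).map θ) ≠ MvPolynomial.C c * MvPolynomial.map (ei F) G := by
  intro hf
  obtain ⟨k4, k3, k3'⟩ := coefs θ Z Y
  have m1 := ev_map c G ![1, 0, X, 0]
  have m2 := ev_map c G ![1, 0, 0, X]
  have v1 : (fun i => ((![1, 0, X, 0] : Fin 4 → F[X][X]) i).map (ei F)) = ![1, 0, X, 0] := by
    funext i
    fin_cases i <;> simp
  have v2 : (fun i => ((![1, 0, 0, X] : Fin 4 → F[X][X]) i).map (ei F)) = ![1, 0, 0, X] := by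
    funext i
    fin_cases i <;> simp
  rw [v1, ← hf] at m1
  rw [v2, ← hf] at m2
  rw [m1, coeff_C_mul, coeff_map] at k4 k3
  rw [m2, coeff_C_mul, coeff_map] at k3'
  set g4 := (MvPolynomial.eval₂Hom Polynomial.C ![1, 0, X, 0] G).coeff 4 with hg4
  set g3 := (MvPolynomial.eval₂Hom Polynomial.C ![1, 0, X, 0] G).coeff 3 with hg3
  set h3 := (MvPolynomial.eval₂Hom Polynomial.C ![1, 0, 0, X] G).coeff 3 with hh3
  -- `et g4 * (Z_+ + Y_+) = et g3`
  have a1 : et F g4 * ((Z 0 0 + Z 1 0) + (Y 0 0 + Y 1 0)) = et F g3 := by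
    apply θ.injective
    rw [map_mul, h1, h1, ← k3]
    linear_combination (ei F g3) * k4
  have a2 : et F g4 * (HahnSeries.single 1 1 * (Z 0 0 + Z 1 0) + HahnSeries.single (-1) 1 * (Y 0 0 + Y 1 0)) =
      et F h3 := by
    apply θ.injective
    rw [map_mul, h1, h1, ← k3']
    linear_combination (ei F h3) * k4
  have hg4n : g4 ≠ 0 := by
    intro h0
    rw [h0, map_zero, mul_zero] at k4
    exact zero_ne_one k4
  set k := g4.natDegree + g3.natDegree + h3.natDegree with hk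
  obtain ⟨P4, p4, -⟩ := clear g4 k (by omega)
  obtain ⟨P3, p3, -⟩ := clear g3 k (by omega)
  obtain ⟨Q3, q3, -⟩ := clear h3 k (by omega)
  have hX : ei F X = HahnSeries.single (-1) 1 := by simp [ei]
  have hP4 : P4 ≠ 0 := by
    intro h0
    rw [h0, map_zero] at p4
    have h5 := et_ne hg4n
    have h6 : (HahnSeries.single (-(k : ℤ)) (1 : F) : LaurentSeries F) ≠ 0 := by
      simp
    exact (mul_ne_zero h6 h5) p4.symm
  have hB : P4 * (X ^ 2 - 1) ≠ 0 := by
    apply mul_ne_zero hP4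
    have := X_pow_sub_C_ne_zero (R := F) (n := 2) (by norm_num) 1
    simpa using this
  have hUU : ∀ n, (fun n => Z 0 n + Z 1 n) n * ei F (X ^ 2 - C a) =
      phi F ((fun n => Z 0 n + Z 1 n) (n + 1)) + HahnSeries.single (-1) (2 * e n) := by
    intro n
    have z0 := h.eqZ 0 n
    have z1 := h.eqZ 1 n
    have s2 : (HahnSeries.single (-1) (2 * e n) : LaurentSeries F) =
        HahnSeries.single (-1) (e n) + HahnSeries.single (-1) (e n) := by
      rw [two_mul, HahnSeries.single_add]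
    simp only [map_add]
    rw [s2, add_mul, z0, z1]
    ring
  refine not_rational h2 a e he (fun n => Z 0 n + Z 1 n) hUU hU0 0 (X ^ 2 * P3 - X * Q3) (P4 * (X ^ 2 - 1)) hB ?_
  simp only [map_mul, map_sub, map_pow, map_one, hX, p4, p3, q3]
  have hts := ts (F := F)
  linear_combination (HahnSeries.single (-(k : ℤ)) 1 * (HahnSeries.single (-1) 1) ^ 2 : LaurentSeries F) * a1 -
    (HahnSeries.single (-(k : ℤ)) 1 * (HahnSeries.single (-1) 1) : LaurentSeries F) * a2 +
    (HahnSeries.single (-(k : ℤ)) 1 * et F g4 * (Z 0 0 + Z 1 0) : LaurentSeries F) * hts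

end Pool.Agent.H35.FF
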