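import Pool.Agent.H35.FF.Fi
import Pool.Agent.H82.DV.Core

/-!
# THEOREM FF in the words of THEOREM DV
-/

set_option autoImplicit false

open Polynomial

namespace Pool.Agent.H35.FF

open Pool.Agent.H82

theorem clauseC (F : Type) [Field F] [Finite F] (h2 : ringChar F ≠ 2)
    (f : ℕ → MvPolynomial (Fin 4) (LaurentSeries F)) :
    ∃ g : GL (Fin 4) (LaurentSeries F), DV.BddBy (g.1.det.order + 4) g.1 ∧
      ¬ DV.Integral (DV.form g.1) ∧ ∀ n, ¬ DV.Equivalent (DV.form g.1) (f n) := by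
  obtain ⟨P, ⟨g, hg, hP, hb⟩, hi, he⟩ := ff F (fun h => h2 (by
    have h3 : ringChar F ∣ 2 := ringChar.dvd (by exact_mod_cast h)
    have h4 : ringChar F ≠ 1 := CharP.ringChar_ne_one
    exact (Nat.dvd_prime Nat.prime_two).1 h3 |>.resolve_left h4)) f
  refine ⟨Matrix.GeneralLinearGroup.mkOfDetNeZero g hg, fun x hx => ?_, fun h => hi ?_,
    fun n h => he n ?_⟩
  · have h5 := hb x hx
    have h6 : MvPolynomial.eval (fun j => ei F (x j)) P = ∏ i, ∑ j, g i j * DV.ei F (x j) := by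
      rw [hP, form, map_prod]
      refine Finset.prod_congr rfl fun i _ => ?_
      rw [map_sum]
      refine Finset.sum_congr rfl fun j _ => ?_
      rw [map_mul, MvPolynomial.eval_C, MvPolynomial.eval_X]
      rfl
    rw [h6] at h5
    exact h5
  · obtain ⟨c, Q, hc, hQ⟩ := h
    exact ⟨c, Q, hc, hP.trans hQ⟩
  · obtain ⟨c, U, hc, hU⟩ := h
    exact ⟨c, U, hc, hP.trans hU⟩

end Pool.Agent.H35.FF
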