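import Pool.Agent.H35.FF.Ph
import Pool.Agent.H35.FF.Po

/-!
# THEOREM FF: `expand` and `phi`, dependent vectors, the inert prime

`rank_one`: `v₀ = (A₀,B₀)`, `v₁ = (A₁,B₁)` dependent and not both zero: take a nonzero one, divide by the gcd of its coordinates (`EuclideanDomain.gcd`, `IsCoprime`), the other is a multiple by coprimality.
`inert`: `S (V₂(X²) - c X V₁(X²)) = (X² - a) y`, `c ≠ 0`, `a` not a square, `V₁, V₂` coprime: `X² - a` divides `S`. PROOF: `X² - a` is irreducible (`X_pow_sub_C_irreducible_of_prime`), so prime; if it divides `G = V₂(X²) - c X V₁(X²)`, then, as `X² - a ∣ V(X²) - V(a)` (`sub_dvd_eval_sub` type), it divides `V₂(a) - c X V₁(a)` of degree `≤ 1`, so `V₁(a) = V₂(a) = 0` and `X - a` divides both.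
-/

set_option autoImplicit false

open Polynomial

namespace Pool.Agent.H35.FF

variable {F : Type} [Field F]

theorem ei_expand (p : F[X]) : ei F (expand F 2 p) = phi F (ei F p) := by
  have h : (ei F).comp ((expand F 2 : F[X] →ₐ[F] F[X]) : F[X] →+* F[X]) = (phi F).comp (ei F) := by
    apply Polynomial.ringHom_ext
    · intro c
      show ei F (expand F 2 (C c)) = phi F (ei F (C c))
      rw [expand_C]
      show eval₂ HahnSeries.C (HahnSeries.single (-1) 1) (C c) =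
        phi F (eval₂ HahnSeries.C (HahnSeries.single (-1) 1) (C c))
      rw [eval₂_C, phi_C]
    · show ei F (expand F 2 X) = phi F (ei F X)
      rw [expand_X, map_pow]
      show (eval₂ HahnSeries.C (HahnSeries.single (-1) 1) X) ^ 2 =
        phi F (eval₂ HahnSeries.C (HahnSeries.single (-1) 1) X)
      rw [eval₂_X, phi_single, sq, HahnSeries.single_mul_single, one_mul]
      rfl
  exact congrArg (fun f : F[X] →+* LaurentSeries F => f p) h

theorem ez_expand (p : F[X]) : ez F (expand F 2 p) = phi F (ez F p) := by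
  have h : (ez F).comp ((expand F 2 : F[X] →ₐ[F] F[X]) : F[X] →+* F[X]) = (phi F).comp (ez F) := by
    apply Polynomial.ringHom_ext
    · intro c
      show ez F (expand F 2 (C c)) = phi F (ez F (C c))
      rw [expand_C]
      show eval₂ HahnSeries.C (HahnSeries.single 1 1) (C c) =
        phi F (eval₂ HahnSeries.C (HahnSeries.single 1 1) (C c))
      rw [eval₂_C, phi_C]
    · show ez F (expand F 2 X) = phi F (ez F X)
      rw [expand_X, map_pow]
      show (eval₂ HahnSeries.C (HahnSeries.single 1 1) X) ^ 2 =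
        phi F (eval₂ HahnSeries.C (HahnSeries.single 1 1) X)
      rw [eval₂_X, phi_single, sq, HahnSeries.single_mul_single, one_mul]
      rfl
  exact congrArg (fun f : F[X] →+* LaurentSeries F => f p) h

private theorem rank_aux (A₀ B₀ A₁ B₁ : F[X]) (hd : A₀ * B₁ - B₀ * A₁ = 0) (hn : A₀ ≠ 0) :
    ∃ V₁ V₂ α β : F[X], IsCoprime V₁ V₂ ∧ A₀ = α * V₁ ∧ B₀ = α * V₂ ∧ A₁ = β * V₁ ∧ B₁ = β * V₂ := by
  classical
  set g := EuclideanDomain.gcd A₀ B₀ with hg
  have hg0 : g ≠ 0 := fun h => hn (EuclideanDomain.gcd_eq_zero_iff.1 h).1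
  obtain ⟨V₁, h1⟩ : g ∣ A₀ := EuclideanDomain.gcd_dvd_left A₀ B₀
  obtain ⟨V₂, h2⟩ : g ∣ B₀ := EuclideanDomain.gcd_dvd_right A₀ B₀
  have hb := EuclideanDomain.gcd_eq_gcd_ab A₀ B₀
  have hcop : IsCoprime V₁ V₂ := by
    refine ⟨EuclideanDomain.gcdA A₀ B₀, EuclideanDomain.gcdB A₀ B₀, ?_⟩
    apply mul_left_cancel₀ hg0
    rw [mul_one]
    calc g * (EuclideanDomain.gcdA A₀ B₀ * V₁ + EuclideanDomain.gcdB A₀ B₀ * V₂)
        = (g * V₁) * EuclideanDomain.gcdA A₀ B₀ + (g * V₂) * EuclideanDomain.gcdB A₀ B₀ := by ring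
      _ = A₀ * EuclideanDomain.gcdA A₀ B₀ + B₀ * EuclideanDomain.gcdB A₀ B₀ := by rw [← h1, ← h2]
      _ = g := hb.symm
  have hV1 : V₁ ≠ 0 := by
    rintro rfl
    exact hn (by rw [h1, mul_zero])
  have h3 : V₁ * B₁ = V₂ * A₁ := by
    apply mul_left_cancel₀ hg0
    calc g * (V₁ * B₁) = (g * V₁) * B₁ := by ring
      _ = A₀ * B₁ := by rw [← h1]
      _ = B₀ * A₁ := by linear_combination hd
      _ = (g * V₂) * A₁ := by rw [← h2]
      _ = g * (V₂ * A₁) := by ring
  have h4 : V₁ ∣ A₁ := by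
    have : V₁ ∣ V₂ * A₁ := ⟨B₁, h3.symm⟩
    exact hcop.dvd_of_dvd_mul_left this
  obtain ⟨b, h5⟩ := h4
  refine ⟨V₁, V₂, g, b, hcop, h1, h2, by rw [h5, mul_comm], ?_⟩
  apply mul_left_cancel₀ hV1
  rw [h3, h5]
  ring

theorem rank_one (A₀ B₀ A₁ B₁ : F[X]) (hd : A₀ * B₁ - B₀ * A₁ = 0)
    (hn : A₀ ≠ 0 ∨ A₁ ≠ 0) : ∃ V₁ V₂ α β : F[X], IsCoprime V₁ V₂ ∧
      A₀ = α * V₁ ∧ B₀ = α * V₂ ∧ A₁ = β * V₁ ∧ B₁ = β * V₂ := by
  rcases hn with hn | hn
  · exact rank_aux A₀ B₀ A₁ B₁ hd hn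
  · obtain ⟨V₁, V₂, α, β, h, h1, h2, h3, h4⟩ := rank_aux A₁ B₁ A₀ B₀ (by linear_combination -hd) hn
    exact ⟨V₁, V₂, β, α, h, h3, h4, h1, h2⟩

private theorem dvd_expand (a : F) (V : F[X]) : (X ^ 2 - C a) ∣ expand F 2 V - C (V.eval a) := by
  have h := Polynomial.sub_dvd_eval_sub (X ^ 2 : F[X]) (C a) (V.map C)
  rw [eval_map, eval_map] at h
  have h1 : eval₂ C (X ^ 2) V = expand F 2 V := rfl
  have h2 : eval₂ C (C a) V = C (V.eval a) := by
    rw [eval₂_at_apply]
  rwa [h1, h2] at h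

theorem inert (a : F) (ha : ¬ IsSquare a) (c : F) (hc : c ≠ 0) (V₁ V₂ S y : F[X])
    (hV : IsCoprime V₁ V₂)
    (h : S * (expand F 2 V₂ - C c * X * expand F 2 V₁) = (X ^ 2 - C a) * y) :
    ∃ S' : F[X], S = (X ^ 2 - C a) * S' := by
  have hirr : Irreducible (X ^ 2 - C a : F[X]) := by
    apply X_pow_sub_C_irreducible_of_prime Nat.prime_two
    intro b hb
    exact ha ⟨b, by rw [← hb, sq]⟩
  have hp : Prime (X ^ 2 - C a : F[X]) := hirr.prime
  rcases hp.2.2 S _ ⟨y, h⟩ with h1 | h1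
  · exact h1
  · exfalso
    have h2 : (X ^ 2 - C a) ∣ C (V₂.eval a) - C c * X * C (V₁.eval a) := by
      have h3 := dvd_expand a V₂
      have h4 := (dvd_expand a V₁).mul_left (C c * X)
      have h5 := (h1.sub h3).add h4
      have h6 : expand F 2 V₂ - C c * X * expand F 2 V₁ - (expand F 2 V₂ - C (V₂.eval a)) +
          C c * X * (expand F 2 V₁ - C (V₁.eval a)) = C (V₂.eval a) - C c * X * C (V₁.eval a) := by
        ring
      rwa [h6] at h5
    have h3 : C (V₂.eval a) - C c * X * C (V₁.eval a) = C (-(c * V₁.eval a)) * X + C (V₂.eval a) := by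
      rw [C_neg, C_mul]
      ring
    rw [h3] at h2
    have h4 : (C (-(c * V₁.eval a)) * X + C (V₂.eval a) : F[X]) = 0 := by
      apply Polynomial.eq_zero_of_dvd_of_degree_lt h2
      have h5 : (X ^ 2 - C a : F[X]).degree = ((2 : ℕ) : WithBot ℕ) := degree_X_pow_sub_C (by norm_num) a
      rw [h5]
      refine lt_of_le_of_lt degree_linear_le ?_
      exact_mod_cast (by norm_num : (1 : ℕ) < 2)
    have h5 : V₂.eval a = 0 := by
      have := congrArg (fun p : F[X] => p.coeff 0) h4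
      simpa using this
    have h6 : V₁.eval a = 0 := by
      have := congrArg (fun p : F[X] => p.coeff 1) h4
      simpa [hc] using this
    obtain ⟨u, w, huw⟩ := hV
    have h7 := congrArg (fun p : F[X] => p.eval a) huw
    simp [h5, h6] at h7

end Pool.Agent.H35.FF
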