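import Pool.Agent.H35.FF.Ex
import Pool.Agent.H35.FF.Pe
import Pool.Agent.H35.FF.Nr

/-!
# THEOREM FF: the `t`-adic Littlewood conjecture fails over every field with a non-square, characteristic not 2

`W`, `V` from `exW`, `exV` (any `e` with `e n ≠ 0`, e.g. `1`). For all `n`, `x ≠ 0`, `y` in `F[X]`: `x W_n + y ≠ 0`, `x V_n + y ≠ 0` and `ord (ei x) + ord (ei x W_n + ei y) + ord (ez x) + ord (ez x V_n + ez y) ≤ 2`. PROOF as `main_lemma`, with the first form `x` at both places: `w = (x, e_n X x + (X² - a) y)`, `ei w₁ φ(W_(n+1)) + ei w₂ = ei(X² - a) (ei x W_n + ei y)`, the sum of the orders for `w` is the one for `(x, y)` minus `2`; to show: `≤ 0`. Case I (`det (v₀, v₁) ≠ 0`): `par_le` with the pairs `(ei A₀, ei A₁)`, `(ei A₀ W + ei B₀, ei A₁ W + ei B₁)`: the determinant is `ei (det)`: sum `≤ 2 ord ei(det) - 1 + 2 ord ez(det) + 1 ≤ 0`.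
Case II: `w = S(X) V(X²)`, `inert`: `S = (X² - a) S'`: sum `= 2 (ord ei S + ord ez S) + 2 (sum for V at level n + 1) ≤ -4 + 4`, by induction (`V₁ ≠ 0`, `2 natDegree V₁ + 2 ≤ natDegree x`). Then `y ∈ F[X]`: `ord (ez x V_n + ez y) ≥ 0`, so `ord (ei x) + ord (ez x) + ord (ei x W_0 + ei y) ≤ 2`.
-/

set_option autoImplicit false

open Polynomial

namespace Pool.Agent.H35.FF

variable {F : Type} [Field F]

private theorem li_eiC (c : F) : ei F (C c) = HahnSeries.C c := by
  rw [ei, coe_eval₂RingHom, eval₂_C]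

private theorem li_eiX : ei F X = HahnSeries.single (-1) 1 := by
  rw [ei, coe_eval₂RingHom, eval₂_X]

private theorem li_ezC (c : F) : ez F (C c) = HahnSeries.C c := by
  rw [ez, coe_eval₂RingHom, eval₂_C]

private theorem li_ezX : ez F X = HahnSeries.single 1 1 := by
  rw [ez, coe_eval₂RingHom, eval₂_X]

private theorem li_CS (c : F) (n : ℤ) :
    (HahnSeries.C c : LaurentSeries F) * HahnSeries.single n 1 = HahnSeries.single n c := by
  rw [HahnSeries.C_apply, HahnSeries.single_mul_single, zero_add, mul_one]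

private theorem li_i (a : F) (c : F) (Zn Zn1 : LaurentSeries F)
    (hZ : Zn * ei F (X ^ 2 - C a) = phi F Zn1 + HahnSeries.single (-1) c) (x y : F[X]) :
    ei F (X ^ 2 - C a) * (ei F x * Zn + ei F y) =
      ei F x * phi F Zn1 + ei F (C c * X * x + (X ^ 2 - C a) * y) := by
  rw [map_add (ei F), map_mul (ei F) (C c * X) x, map_mul (ei F) (C c) X, li_eiC, li_eiX, li_CS,
    map_mul (ei F) (X ^ 2 - C a) y]
  linear_combination ei F x * hZ

private theorem li_z (a : F) (c : F) (Yn Yn1 : LaurentSeries F)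
    (hY : Yn * ez F (X ^ 2 - C a) = phi F Yn1 + HahnSeries.single 1 c) (x y : F[X]) :
    ez F (X ^ 2 - C a) * (ez F x * Yn + ez F y) =
      ez F x * phi F Yn1 + ez F (C c * X * x + (X ^ 2 - C a) * y) := by
  rw [map_add (ez F), map_mul (ez F) (C c * X) x, map_mul (ez F) (C c) X, li_ezC, li_ezX, li_CS,
    map_mul (ez F) (X ^ 2 - C a) y]
  linear_combination ez F x * hY

private theorem li_si (A₀ A₁ B₀ B₁ : F[X]) (Z : LaurentSeries F) :
    ei F (expand F 2 A₀ + X * expand F 2 A₁) * phi F Z + ei F (expand F 2 B₀ + X * expand F 2 B₁) =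
      phi F (ei F A₀ * Z + ei F B₀) +
        HahnSeries.single (-1) 1 * phi F (ei F A₁ * Z + ei F B₁) := by
  simp only [map_add, map_mul, li_eiX, ei_expand]
  ring

private theorem li_sz (A₀ A₁ B₀ B₁ : F[X]) (Y : LaurentSeries F) :
    ez F (expand F 2 A₀ + X * expand F 2 A₁) * phi F Y + ez F (expand F 2 B₀ + X * expand F 2 B₁) =
      phi F (ez F A₀ * Y + ez F B₀) +
        HahnSeries.single 1 1 * phi F (ez F A₁ * Y + ez F B₁) := by
  simp only [map_add, map_mul, li_ezX, ez_expand]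
  ring

private theorem li_xi (A₀ A₁ : F[X]) :
    ei F (expand F 2 A₀ + X * expand F 2 A₁) =
      phi F (ei F A₀) + HahnSeries.single (-1) 1 * phi F (ei F A₁) := by
  simp only [map_add, map_mul, li_eiX, ei_expand]

private theorem li_xz (A₀ A₁ : F[X]) :
    ez F (expand F 2 A₀ + X * expand F 2 A₁) =
      phi F (ez F A₀) + HahnSeries.single 1 1 * phi F (ez F A₁) := by
  simp only [map_add, map_mul, li_ezX, ez_expand]

/-- the main lemma for `(x, x W + y)` and `(x, x V + y)` -/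
private theorem li_main (a : F) (ha : ¬ IsSquare a) (e : ℕ → F) (he : ∀ n, e n ≠ 0)
    (W V : ℕ → LaurentSeries F)
    (hW : ∀ n, W n * ei F (X ^ 2 - C a) = phi F (W (n + 1)) + HahnSeries.single (-1) (e n))
    (hV : ∀ n, V n * ez F (X ^ 2 - C a) = phi F (V (n + 1)) + HahnSeries.single 1 (e n))
    (N : ℕ) : ∀ (x y : F[X]) (n : ℕ), x ≠ 0 → x.natDegree = N →
    ei F x * W n + ei F y ≠ 0 ∧ ez F x * V n + ez F y ≠ 0 ∧
    (ei F x).order + (ei F x * W n + ei F y).order +
      ((ez F x).order + (ez F x * V n + ez F y).order) ≤ 2 := by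
  have ha0 : a ≠ 0 := fun h0 => ha ⟨0, by rw [h0, mul_zero]⟩
  induction N using Nat.strong_induction_on with
  | _ N ih =>
  intro x y n hx hN
  set w : F[X] := C (e n) * X * x + (X ^ 2 - C a) * y with hw
  obtain ⟨A₀, A₁, hxs, -, -⟩ := split x
  obtain ⟨B₀, B₁, hws, -, -⟩ := split w
  obtain ⟨hQi, hQz⟩ := ord_Q a ha0
  have hQ0 : (X ^ 2 - C a : F[X]) ≠ 0 := X_pow_sub_C_ne_zero (by norm_num) a
  have hQin := (ei_ne hQ0).1
  have hQzn := (ez_ne hQ0).1
  have hfi : ei F (X ^ 2 - C a) * (ei F x * W n + ei F y) =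
      phi F (ei F A₀ * W (n + 1) + ei F B₀) +
        HahnSeries.single (-1) 1 * phi F (ei F A₁ * W (n + 1) + ei F B₁) := by
    rw [li_i a (e n) (W n) (W (n + 1)) (hW n) x y, ← hw, ← li_si, ← hxs, ← hws]
  have hfz : ez F (X ^ 2 - C a) * (ez F x * V n + ez F y) =
      phi F (ez F A₀ * V (n + 1) + ez F B₀) +
        HahnSeries.single 1 1 * phi F (ez F A₁ * V (n + 1) + ez F B₁) := by
    rw [li_z a (e n) (V n) (V (n + 1)) (hV n) x y, ← hw, ← li_sz, ← hxs, ← hws]
  have hxi : ei F x = phi F (ei F A₀) + HahnSeries.single (-1) 1 * phi F (ei F A₁) := by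
    rw [← li_xi, ← hxs]
  have hxz : ez F x = phi F (ez F A₀) + HahnSeries.single 1 1 * phi F (ez F A₁) := by
    rw [← li_xz, ← hxs]
  -- it is enough to bound the transformed forms
  have hred : ∀ (f g : LaurentSeries F), f ≠ 0 → g ≠ 0 →
      f = ei F (X ^ 2 - C a) * (ei F x * W n + ei F y) →
      g = ez F (X ^ 2 - C a) * (ez F x * V n + ez F y) →
      (ei F x).order + f.order + ((ez F x).order + g.order) ≤ 0 →
      ei F x * W n + ei F y ≠ 0 ∧ ez F x * V n + ez F y ≠ 0 ∧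
      (ei F x).order + (ei F x * W n + ei F y).order +
        ((ez F x).order + (ez F x * V n + ez F y).order) ≤ 2 := by
    intro f g hf hg e1 e2 hle
    have n1 : ei F x * W n + ei F y ≠ 0 := fun h0 => hf (by rw [e1, h0, mul_zero])
    have n2 : ez F x * V n + ez F y ≠ 0 := fun h0 => hg (by rw [e2, h0, mul_zero])
    have o1 := HahnSeries.order_mul hQin n1
    have o2 := HahnSeries.order_mul hQzn n2
    rw [← e1, hQi] at o1
    rw [← e2, hQz] at o2
    exact ⟨n1, n2, by linarith⟩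
  by_cases hd : A₀ * B₁ - B₀ * A₁ = 0
  · -- dependent
    have hn : A₀ ≠ 0 ∨ A₁ ≠ 0 := by
      by_contra hcon
      push Not at hcon
      rw [hcon.1, hcon.2, map_zero, mul_zero, add_zero] at hxs
      exact hx hxs
    obtain ⟨V₁, V₂, α, β, hVc, e1, e2, e3, e4⟩ := rank_one A₀ B₀ A₁ B₁ hd hn
    set S : F[X] := expand F 2 α + X * expand F 2 β with hS
    have hxS : x = S * expand F 2 V₁ := by
      rw [hxs, e1, e3, hS, map_mul, map_mul]
      ring
    have hwS : w = S * expand F 2 V₂ := by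
      rw [hws, e2, e4, hS, map_mul, map_mul]
      ring
    obtain ⟨S', hS'⟩ := inert a ha (e n) (he n) V₁ V₂ S y hVc (by
      rw [mul_sub, ← hwS]
      have h1 : S * (C (e n) * X * expand F 2 V₁) = C (e n) * X * (S * expand F 2 V₁) := by ring
      rw [h1, ← hxS, hw]
      ring)
    have hS0 : S ≠ 0 := fun h0 => hx (by rw [hxS, h0, zero_mul])
    have hV0 : V₁ ≠ 0 := fun h0 => hx (by rw [hxS, h0, map_zero, mul_zero])
    have hS'0 : S' ≠ 0 := fun h0 => hS0 (by rw [hS', h0, mul_zero])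
    have hdeg : x.natDegree = 2 + S'.natDegree + 2 * V₁.natDegree := by
      have hV0' : expand F 2 V₁ ≠ 0 := (expand_ne_zero (by norm_num)).2 hV0
      rw [hxS, natDegree_mul hS0 hV0', hS', natDegree_mul hQ0 hS'0, natDegree_expand,
        natDegree_X_pow_sub_C]
      ring
    obtain ⟨ihn, ihm, ihs⟩ := ih V₁.natDegree (by omega) V₁ V₂ (n + 1) hV0 rfl
    -- the orders of `S`
    obtain ⟨s1, s2⟩ := ei_ne hS'0
    obtain ⟨s3, s4⟩ := ez_ne hS'0
    have s5 : (S'.natTrailingDegree : ℤ) ≤ S'.natDegree := by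
      exact_mod_cast natTrailingDegree_le_natDegree S'
    have hSi : ei F S ≠ 0 ∧ (ei F S).order = -2 - S'.natDegree := by
      refine ⟨(ei_ne hS0).1, ?_⟩
      rw [hS', map_mul, HahnSeries.order_mul hQin s1, hQi, s2]
      ring
    have hSz : ez F S ≠ 0 ∧ (ez F S).order = S'.natTrailingDegree := by
      refine ⟨(ez_ne hS0).1, ?_⟩
      rw [hS', map_mul, HahnSeries.order_mul hQzn s3, hQz, s4]
      ring
    have hFi : ei F (X ^ 2 - C a) * (ei F x * W n + ei F y) =
        ei F S * phi F (ei F V₁ * W (n + 1) + ei F V₂) := by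
      rw [li_i a (e n) (W n) (W (n + 1)) (hW n) x y, ← hw, hxS, hwS]
      simp only [map_add, map_mul, ei_expand]
      ring
    have hFz : ez F (X ^ 2 - C a) * (ez F x * V n + ez F y) =
        ez F S * phi F (ez F V₁ * V (n + 1) + ez F V₂) := by
      rw [li_z a (e n) (V n) (V (n + 1)) (hV n) x y, ← hw, hxS, hwS]
      simp only [map_add, map_mul, ez_expand]
      ring
    have hXi : ei F x = ei F S * phi F (ei F V₁) := by
      rw [hxS, map_mul, ei_expand]
    have hXz : ez F x = ez F S * phi F (ez F V₁) := by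
      rw [hxS, map_mul, ez_expand]
    have p0 := phi_ne ihn
    have q0 := phi_ne ihm
    have p1 := phi_ne (ei_ne hV0).1
    have q1 := phi_ne (ez_ne hV0).1
    have oXi : (ei F x).order = (ei F S).order + 2 * (ei F V₁).order := by
      rw [hXi, HahnSeries.order_mul hSi.1 p1.1, p1.2]
    have oXz : (ez F x).order = (ez F S).order + 2 * (ez F V₁).order := by
      rw [hXz, HahnSeries.order_mul hSz.1 q1.1, q1.2]
    refine hred _ _ (mul_ne_zero hSi.1 p0.1) (mul_ne_zero hSz.1 q0.1) hFi.symm hFz.symm ?_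
    rw [HahnSeries.order_mul hSi.1 p0.1, HahnSeries.order_mul hSz.1 q0.1, oXi, oXz, hSi.2, hSz.2,
      p0.2, q0.2]
    linarith
  · -- independent
    obtain ⟨d1, d2⟩ := ei_ne hd
    obtain ⟨d3, d4⟩ := ez_ne hd
    have d5 : ((A₀ * B₁ - B₀ * A₁).natTrailingDegree : ℤ) ≤ (A₀ * B₁ - B₀ * A₁).natDegree := by
      exact_mod_cast natTrailingDegree_le_natDegree _
    have hDi : ei F A₀ * (ei F A₁ * W (n + 1) + ei F B₁) -
        (ei F A₀ * W (n + 1) + ei F B₀) * ei F A₁ = ei F (A₀ * B₁ - B₀ * A₁) := by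
      simp only [map_sub, map_mul]
      ring
    have hDz : ez F A₀ * (ez F A₁ * V (n + 1) + ez F B₁) -
        (ez F A₀ * V (n + 1) + ez F B₀) * ez F A₁ = ez F (A₀ * B₁ - B₀ * A₁) := by
      simp only [map_sub, map_mul]
      ring
    obtain ⟨u1, u2, u3⟩ := par_le (-1) (Or.inr rfl) (ei F A₀) (ei F A₁)
      (ei F A₀ * W (n + 1) + ei F B₀) (ei F A₁ * W (n + 1) + ei F B₁) (by rw [hDi]; exact d1)
    obtain ⟨v1, v2, v3⟩ := par_le 1 (Or.inl rfl) (ez F A₀) (ez F A₁)
      (ez F A₀ * V (n + 1) + ez F B₀) (ez F A₁ * V (n + 1) + ez F B₁) (by rw [hDz]; exact d3)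
    rw [hDi, d2, ← hxi] at u3
    rw [hDz, d4, ← hxz] at v3
    refine hred _ _ u2 v2 hfi.symm hfz.symm ?_
    linarith

/-- `|N| |N|_t |N α - M| ≥ q⁻²` for all `N ≠ 0`, `M` in `F[t]`: here `LaurentSeries F = F((1/t))`. -/
theorem littlewood (F : Type) [Field F] (a : F) (ha : ¬ IsSquare a) :
    ∃ α : LaurentSeries F, ∀ N M : F[X], N ≠ 0 →
      ei F N * α - ei F M ≠ 0 ∧
      -(N.natDegree : ℤ) + (N.natTrailingDegree : ℤ) + (ei F N * α - ei F M).order ≤ 2 := by
  have ha0 : a ≠ 0 := fun h0 => ha ⟨0, by rw [h0, mul_zero]⟩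
  obtain ⟨W, hW, -, -⟩ := exW a (fun _ => (1 : F))
  obtain ⟨V, hV, hV0⟩ := exV a ha0 (fun _ => (1 : F))
  refine ⟨W 0, fun N M hN => ?_⟩
  obtain ⟨h1, h2, h3⟩ := li_main a ha (fun _ => (1 : F)) (fun _ => one_ne_zero) W V hW hV
    N.natDegree N (-M) 0 hN rfl
  have e1 : ei F N * W 0 + ei F (-M) = ei F N * W 0 - ei F M := by
    rw [map_neg, sub_eq_add_neg]
  rw [e1] at h1 h3
  refine ⟨h1, ?_⟩
  have h4 : 0 ≤ (ez F N * V 0 + ez F (-M)).order := by
    rw [HahnSeries.le_order_iff_forall h2]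
    intro j hj
    have hm : (ez F (-M)).coeff j = 0 := ez_coeff_neg _ j hj
    have hp : (ez F N * V 0).coeff j = 0 := by
      by_cases hv : V 0 = 0
      · rw [hv, mul_zero, HahnSeries.coeff_zero]
      · apply HahnSeries.coeff_eq_zero_of_lt_order
        rw [HahnSeries.order_mul (ez_ne hN).1 hv, (ez_ne hN).2]
        have h5 : 0 < (V 0).order := by
          by_contra hcon
          rw [not_lt] at hcon
          exact hv (HahnSeries.coeff_order_eq_zero.1 (hV0 0 _ hcon))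
        have h6 : (0 : ℤ) ≤ (N.natTrailingDegree : ℤ) := Int.natCast_nonneg _
        linarith
    rw [HahnSeries.coeff_add, hp, hm, add_zero]
  rw [(ei_ne hN).2, (ez_ne hN).2] at h3
  linarith

end Pool.Agent.H35.FF
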