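import Pool.Agent.H35.FF.Pe

/-!
# THEOREM FF: the main lemma
-/

set_option autoImplicit false

open Polynomial

namespace Pool.Agent.H35.FF

variable {F : Type} [Field F]

/-- The four series at all levels. -/
structure Sys (a : F) (e : ℕ → F) (Z Y : Fin 2 → ℕ → LaurentSeries F) : Prop where
  eqZ : ∀ i n, Z i n * ei F (X ^ 2 - C a) = phi F (Z i (n + 1)) + HahnSeries.single (-1) (e n)
  eqY : ∀ i n, Y i n * ez F (X ^ 2 - C a) = phi F (Y i (n + 1)) + HahnSeries.single 1 (e n)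
  dZ : ∀ n, Z 0 n - Z 1 n ≠ 0 ∧ (Z 0 n - Z 1 n).order = -2
  dY : ∀ n, Y 0 n - Y 1 n ≠ 0 ∧ (Y 0 n - Y 1 n).order = 0

private theorem ei_C (c : F) : ei F (C c) = HahnSeries.C c := by
  rw [ei, coe_eval₂RingHom, eval₂_C]

private theorem ei_X : ei F X = HahnSeries.single (-1) 1 := by
  rw [ei, coe_eval₂RingHom, eval₂_X]

private theorem ez_C (c : F) : ez F (C c) = HahnSeries.C c := by
  rw [ez, coe_eval₂RingHom, eval₂_C]

private theorem ez_X : ez F X = HahnSeries.single 1 1 := by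
  rw [ez, coe_eval₂RingHom, eval₂_X]

private theorem C_mul_single (c : F) (n : ℤ) :
    (HahnSeries.C c : LaurentSeries F) * HahnSeries.single n 1 = HahnSeries.single n c := by
  rw [HahnSeries.C_apply, HahnSeries.single_mul_single, zero_add, mul_one]

/-- the transformed linear form -/
private theorem lin_i (a : F) (c : F) (Zn Zn1 : LaurentSeries F)
    (hZ : Zn * ei F (X ^ 2 - C a) = phi F Zn1 + HahnSeries.single (-1) c) (x y : F[X]) :
    ei F (X ^ 2 - C a) * (ei F x * Zn + ei F y) =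
      ei F x * phi F Zn1 + ei F (C c * X * x + (X ^ 2 - C a) * y) := by
  rw [map_add (ei F), map_mul (ei F) (C c * X) x, map_mul (ei F) (C c) X, ei_C, ei_X, C_mul_single,
    map_mul (ei F) (X ^ 2 - C a) y]
  linear_combination ei F x * hZ

private theorem lin_z (a : F) (c : F) (Yn Yn1 : LaurentSeries F)
    (hY : Yn * ez F (X ^ 2 - C a) = phi F Yn1 + HahnSeries.single 1 c) (x y : F[X]) :
    ez F (X ^ 2 - C a) * (ez F x * Yn + ez F y) =
      ez F x * phi F Yn1 + ez F (C c * X * x + (X ^ 2 - C a) * y) := by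
  rw [map_add (ez F), map_mul (ez F) (C c * X) x, map_mul (ez F) (C c) X, ez_C, ez_X, C_mul_single,
    map_mul (ez F) (X ^ 2 - C a) y]
  linear_combination ez F x * hY

private theorem spl_i (A₀ A₁ B₀ B₁ : F[X]) (Z : LaurentSeries F) :
    ei F (expand F 2 A₀ + X * expand F 2 A₁) * phi F Z + ei F (expand F 2 B₀ + X * expand F 2 B₁) =
      phi F (ei F A₀ * Z + ei F B₀) +
        HahnSeries.single (-1) 1 * phi F (ei F A₁ * Z + ei F B₁) := by
  simp only [map_add, map_mul, ei_X, ei_expand]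
  ring

private theorem spl_z (A₀ A₁ B₀ B₁ : F[X]) (Y : LaurentSeries F) :
    ez F (expand F 2 A₀ + X * expand F 2 A₁) * phi F Y + ez F (expand F 2 B₀ + X * expand F 2 B₁) =
      phi F (ez F A₀ * Y + ez F B₀) +
        HahnSeries.single 1 1 * phi F (ez F A₁ * Y + ez F B₁) := by
  simp only [map_add, map_mul, ez_X, ez_expand]
  ring

/-- MAIN LEMMA -/
theorem main_lemma (a : F) (ha : ¬ IsSquare a) (e : ℕ → F) (he : ∀ n, e n ≠ 0)
    (Z Y : Fin 2 → ℕ → LaurentSeries F) (h : Sys a e Z Y) (x y : F[X]) (hxy : x ≠ 0 ∨ y ≠ 0)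
    (n : ℕ) :
    (∀ i, ei F x * Z i n + ei F y ≠ 0 ∧ ez F x * Y i n + ez F y ≠ 0) ∧
    (ei F x * Z 0 n + ei F y).order + (ei F x * Z 1 n + ei F y).order +
      ((ez F x * Y 0 n + ez F y).order + (ez F x * Y 1 n + ez F y).order) ≤ 0 := by
  have ha0 : a ≠ 0 := fun h0 => ha ⟨0, by rw [h0, mul_zero]⟩
  -- the case `x = 0`
  by_cases hx : x = 0
  · have hy : y ≠ 0 := hxy.resolve_left (fun h0 => h0 hx)
    subst hx
    obtain ⟨h1, h2⟩ := ei_ne hy
    obtain ⟨h3, h4⟩ := ez_ne hy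
    have h5 : (y.natTrailingDegree : ℤ) ≤ y.natDegree := by
      exact_mod_cast natTrailingDegree_le_natDegree y
    simp only [map_zero, zero_mul, zero_add]
    refine ⟨fun _ => ⟨h1, h3⟩, ?_⟩
    rw [h2, h4]
    linarith
  clear hxy
  obtain ⟨N, hN⟩ : ∃ N, x.natDegree = N := ⟨_, rfl⟩
  induction N using Nat.strong_induction_on generalizing x y n with
  | _ N ih =>
  set w : F[X] := C (e n) * X * x + (X ^ 2 - C a) * y with hw
  obtain ⟨A₀, A₁, hxs, -, -⟩ := split x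
  obtain ⟨B₀, B₁, hws, -, -⟩ := split w
  obtain ⟨hQi, hQz⟩ := ord_Q a ha0
  have hQ0 : (X ^ 2 - C a : F[X]) ≠ 0 := X_pow_sub_C_ne_zero (by norm_num) a
  have hQin := (ei_ne hQ0).1
  have hQzn := (ez_ne hQ0).1
  -- the transformed forms
  have hfi : ∀ i, ei F (X ^ 2 - C a) * (ei F x * Z i n + ei F y) =
      phi F (ei F A₀ * Z i (n + 1) + ei F B₀) +
        HahnSeries.single (-1) 1 * phi F (ei F A₁ * Z i (n + 1) + ei F B₁) := by
    intro i
    rw [lin_i a (e n) (Z i n) (Z i (n + 1)) (h.eqZ i n) x y, ← hw, ← spl_i, ← hxs, ← hws]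
  have hfz : ∀ i, ez F (X ^ 2 - C a) * (ez F x * Y i n + ez F y) =
      phi F (ez F A₀ * Y i (n + 1) + ez F B₀) +
        HahnSeries.single 1 1 * phi F (ez F A₁ * Y i (n + 1) + ez F B₁) := by
    intro i
    rw [lin_z a (e n) (Y i n) (Y i (n + 1)) (h.eqY i n) x y, ← hw, ← spl_z, ← hxs, ← hws]
  -- it is enough to bound the transformed forms
  have hred : ∀ (f₀ f₁ g₀ g₁ : LaurentSeries F), f₀ ≠ 0 → f₁ ≠ 0 → g₀ ≠ 0 → g₁ ≠ 0 →
      f₀ = ei F (X ^ 2 - C a) * (ei F x * Z 0 n + ei F y) →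
      f₁ = ei F (X ^ 2 - C a) * (ei F x * Z 1 n + ei F y) →
      g₀ = ez F (X ^ 2 - C a) * (ez F x * Y 0 n + ez F y) →
      g₁ = ez F (X ^ 2 - C a) * (ez F x * Y 1 n + ez F y) →
      f₀.order + f₁.order + (g₀.order + g₁.order) ≤ -4 →
      (∀ i, ei F x * Z i n + ei F y ≠ 0 ∧ ez F x * Y i n + ez F y ≠ 0) ∧
      (ei F x * Z 0 n + ei F y).order + (ei F x * Z 1 n + ei F y).order +
        ((ez F x * Y 0 n + ez F y).order + (ez F x * Y 1 n + ez F y).order) ≤ 0 := by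
    intro f₀ f₁ g₀ g₁ hf₀ hf₁ hg₀ hg₁ e1 e2 e3 e4 hle
    have n1 : ei F x * Z 0 n + ei F y ≠ 0 := fun h0 => hf₀ (by rw [e1, h0, mul_zero])
    have n2 : ei F x * Z 1 n + ei F y ≠ 0 := fun h0 => hf₁ (by rw [e2, h0, mul_zero])
    have n3 : ez F x * Y 0 n + ez F y ≠ 0 := fun h0 => hg₀ (by rw [e3, h0, mul_zero])
    have n4 : ez F x * Y 1 n + ez F y ≠ 0 := fun h0 => hg₁ (by rw [e4, h0, mul_zero])
    have o1 := HahnSeries.order_mul hQin n1
    have o2 := HahnSeries.order_mul hQin n2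
    have o3 := HahnSeries.order_mul hQzn n3
    have o4 := HahnSeries.order_mul hQzn n4
    rw [← e1, hQi] at o1
    rw [← e2, hQi] at o2
    rw [← e3, hQz] at o3
    rw [← e4, hQz] at o4
    refine ⟨fun i => ?_, by linarith⟩
    match i with
    | 0 => exact ⟨n1, n3⟩
    | 1 => exact ⟨n2, n4⟩
  by_cases hd : A₀ * B₁ - B₀ * A₁ = 0
  · -- dependent
    have hn : A₀ ≠ 0 ∨ A₁ ≠ 0 := by
      by_contra hcon
      push Not at hcon
      rw [hcon.1, hcon.2, map_zero, mul_zero, add_zero] at hxs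
      exact hx hxs
    obtain ⟨V₁, V₂, α, β, hV, e1, e2, e3, e4⟩ := rank_one A₀ B₀ A₁ B₁ hd hn
    set S : F[X] := expand F 2 α + X * expand F 2 β with hS
    have hxS : x = S * expand F 2 V₁ := by
      rw [hxs, e1, e3, hS, map_mul, map_mul]
      ring
    have hwS : w = S * expand F 2 V₂ := by
      rw [hws, e2, e4, hS, map_mul, map_mul]
      ring
    obtain ⟨S', hS'⟩ := inert a ha (e n) (he n) V₁ V₂ S y hV (by
      rw [mul_sub, ← hwS]
      have h1 : S * (C (e n) * X * expand F 2 V₁) = C (e n) * X * (S * expand F 2 V₁) := by ring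
      rw [h1, ← hxS, hw]
      ring)
    have hS0 : S ≠ 0 := fun h0 => hx (by rw [hxS, h0, zero_mul])
    have hV0 : V₁ ≠ 0 := fun h0 => hx (by rw [hxS, h0, map_zero, mul_zero])
    have hS'0 : S' ≠ 0 := fun h0 => hS0 (by rw [hS', h0, mul_zero])
    have hdeg : x.natDegree = 2 + S'.natDegree + 2 * V₁.natDegree := by
      have hV0' : expand F 2 V₁ ≠ 0 := (expand_ne_zero (by norm_num)).2 hV0
      rw [hxS, natDegree_mul hS0 hV0', hS', natDegree_mul hQ0 hS'0, natDegree_expand,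
        natDegree_X_pow_sub_C]
      ring
    obtain ⟨ihn, ihs⟩ := ih V₁.natDegree (by omega) V₁ V₂ (n + 1) hV0 rfl
    -- the orders of `S`
    obtain ⟨s1, s2⟩ := ei_ne hS'0
    obtain ⟨s3, s4⟩ := ez_ne hS'0
    have s5 : (S'.natTrailingDegree : ℤ) ≤ S'.natDegree := by
      exact_mod_cast natTrailingDegree_le_natDegree S'
    have hSi : ei F S ≠ 0 ∧ (ei F S).order = -2 - S'.natDegree := by
      refine ⟨(ei_ne hS0).1, ?_⟩
      rw [hS', map_mul, HahnSeries.order_mul hQin s1, hQi, s2]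
      ring
    have hSz : ez F S ≠ 0 ∧ (ez F S).order = S'.natTrailingDegree := by
      refine ⟨(ez_ne hS0).1, ?_⟩
      rw [hS', map_mul, HahnSeries.order_mul hQzn s3, hQz, s4]
      ring
    have hFi : ∀ i, ei F (X ^ 2 - C a) * (ei F x * Z i n + ei F y) =
        ei F S * phi F (ei F V₁ * Z i (n + 1) + ei F V₂) := by
      intro i
      rw [lin_i a (e n) (Z i n) (Z i (n + 1)) (h.eqZ i n) x y, ← hw, hxS, hwS]
      simp only [map_add, map_mul, ei_expand]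
      ring
    have hFz : ∀ i, ez F (X ^ 2 - C a) * (ez F x * Y i n + ez F y) =
        ez F S * phi F (ez F V₁ * Y i (n + 1) + ez F V₂) := by
      intro i
      rw [lin_z a (e n) (Y i n) (Y i (n + 1)) (h.eqY i n) x y, ← hw, hxS, hwS]
      simp only [map_add, map_mul, ez_expand]
      ring
    have p0 := phi_ne (ihn 0).1
    have p1 := phi_ne (ihn 1).1
    have q0 := phi_ne (ihn 0).2
    have q1 := phi_ne (ihn 1).2
    refine hred _ _ _ _ (mul_ne_zero hSi.1 p0.1) (mul_ne_zero hSi.1 p1.1)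
      (mul_ne_zero hSz.1 q0.1) (mul_ne_zero hSz.1 q1.1) (hFi 0).symm (hFi 1).symm
      (hFz 0).symm (hFz 1).symm ?_
    rw [HahnSeries.order_mul hSi.1 p0.1, HahnSeries.order_mul hSi.1 p1.1,
      HahnSeries.order_mul hSz.1 q0.1, HahnSeries.order_mul hSz.1 q1.1, hSi.2, hSz.2, p0.2, p1.2,
      q0.2, q1.2]
    linarith
  · -- independent
    obtain ⟨d1, d2⟩ := ei_ne hd
    obtain ⟨d3, d4⟩ := ez_ne hd
    have d5 : ((A₀ * B₁ - B₀ * A₁).natTrailingDegree : ℤ) ≤ (A₀ * B₁ - B₀ * A₁).natDegree := by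
      exact_mod_cast natTrailingDegree_le_natDegree _
    have hDi : (ei F A₀ * Z 0 (n + 1) + ei F B₀) * (ei F A₁ * Z 1 (n + 1) + ei F B₁) -
        (ei F A₀ * Z 1 (n + 1) + ei F B₀) * (ei F A₁ * Z 0 (n + 1) + ei F B₁) =
        ei F (A₀ * B₁ - B₀ * A₁) * (Z 0 (n + 1) - Z 1 (n + 1)) := by
      simp only [map_sub, map_mul]
      ring
    have hDz : (ez F A₀ * Y 0 (n + 1) + ez F B₀) * (ez F A₁ * Y 1 (n + 1) + ez F B₁) -
        (ez F A₀ * Y 1 (n + 1) + ez F B₀) * (ez F A₁ * Y 0 (n + 1) + ez F B₁) =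
        ez F (A₀ * B₁ - B₀ * A₁) * (Y 0 (n + 1) - Y 1 (n + 1)) := by
      simp only [map_sub, map_mul]
      ring
    have hDi0 := mul_ne_zero d1 (h.dZ (n + 1)).1
    have hDz0 := mul_ne_zero d3 (h.dY (n + 1)).1
    have oDi := HahnSeries.order_mul d1 (h.dZ (n + 1)).1
    have oDz := HahnSeries.order_mul d3 (h.dY (n + 1)).1
    rw [d2, (h.dZ (n + 1)).2] at oDi
    rw [d4, (h.dY (n + 1)).2] at oDz
    obtain ⟨u1, u2, u3⟩ := par_le (-1) (Or.inr rfl) (ei F A₀ * Z 0 (n + 1) + ei F B₀)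
      (ei F A₁ * Z 0 (n + 1) + ei F B₁) (ei F A₀ * Z 1 (n + 1) + ei F B₀)
      (ei F A₁ * Z 1 (n + 1) + ei F B₁) (by rw [hDi]; exact hDi0)
    obtain ⟨v1, v2, v3⟩ := par_le 1 (Or.inl rfl) (ez F A₀ * Y 0 (n + 1) + ez F B₀)
      (ez F A₁ * Y 0 (n + 1) + ez F B₁) (ez F A₀ * Y 1 (n + 1) + ez F B₀)
      (ez F A₁ * Y 1 (n + 1) + ez F B₁) (by rw [hDz]; exact hDz0)
    rw [hDi, oDi] at u3
    rw [hDz, oDz] at v3
    refine hred _ _ _ _ u1 u2 v1 v2 (hfi 0).symm (hfi 1).symm (hfz 0).symm (hfz 1).symm ?_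
    linarith

end Pool.Agent.H35.FF
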