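import Pool.Agent.H35.FF.So
import Pool.Agent.H35.FF.Cl

/-!
# THEOREM FF: the matrix over `F((s))`

Rows `(Z_i, t Z_i, 1, t)`, `(Y_i, t⁻¹ Y_i, 1, t⁻¹)`, `t = s⁻¹`. `gm_val`: the product of the four forms at `(x₀, x₁, y₀, y₁)` (embedded by `et`) is `∏ ((x₀ + t x₁) Z_i + (y₀ + t y₁)) ∏ ((x₀ + t⁻¹ x₁) Y_i + (y₀ + t⁻¹ y₁))`; with `clear₂` this is `∏ s^k (ei A Z_i + ei B) ∏ s^(-k) (ez A Y_i + ez B)`, and `main_lemma` applies.
`gm_det`: `det = ± (Z_0 - Z_1)(Y_0 - Y_1)(t - t⁻¹)²` (`Matrix.det_succ_row_zero`, `Fin.sum_univ_succ`, `ring`; find the sign), order `-2 + 0 - 2`.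
-/

set_option autoImplicit false

open Polynomial

namespace Pool.Agent.H35.FF

variable {F : Type} [Field F]

/-- the matrix of the four linear forms -/
noncomputable def gm (Z Y : Fin 2 → ℕ → LaurentSeries F) :
    Matrix (Fin 4) (Fin 4) (LaurentSeries F) :=
  !![Z 0 0, HahnSeries.single (-1) 1 * Z 0 0, 1, HahnSeries.single (-1) 1;
     Z 1 0, HahnSeries.single (-1) 1 * Z 1 0, 1, HahnSeries.single (-1) 1;
     Y 0 0, HahnSeries.single 1 1 * Y 0 0, 1, HahnSeries.single 1 1;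
     Y 1 0, HahnSeries.single 1 1 * Y 1 0, 1, HahnSeries.single 1 1]

private theorem ord_st {x : LaurentSeries F} (k : ℤ) (hx : HahnSeries.single k 1 * x ≠ 0) :
    x ≠ 0 ∧ (HahnSeries.single k 1 * x).order = k + x.order := by
  have hx0 : x ≠ 0 := fun h0 => hx (by rw [h0, mul_zero])
  have h1 : (HahnSeries.single k 1 : LaurentSeries F) ≠ 0 := HahnSeries.single_ne_zero one_ne_zero
  refine ⟨hx0, ?_⟩
  rw [HahnSeries.order_mul h1 hx0, HahnSeries.order_single one_ne_zero]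

private theorem ord_ts : (HahnSeries.single (-1) 1 - HahnSeries.single 1 1 : LaurentSeries F) ≠ 0 ∧
    (HahnSeries.single (-1) 1 - HahnSeries.single 1 1 : LaurentSeries F).order = -1 := by
  have hQ0 : (X ^ 2 - C 1 : F[X]) ≠ 0 := X_pow_sub_C_ne_zero (by norm_num) 1
  have hn := (ei_ne hQ0).1
  have ho := (ord_Q (1 : F) one_ne_zero).1
  have hX : ei F X = HahnSeries.single (-1) 1 := by
    rw [ei, coe_eval₂RingHom, eval₂_X]
  have hC : ei F (C 1) = 1 := by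
    rw [map_one, map_one]
  have h1 : (HahnSeries.single (-1) 1 * HahnSeries.single 1 1 : LaurentSeries F) = 1 := by
    rw [HahnSeries.single_mul_single, neg_add_cancel, one_mul, HahnSeries.single_zero_one]
  have h2 : ei F (X ^ 2 - C 1) =
      HahnSeries.single (-1) 1 * (HahnSeries.single (-1) 1 - HahnSeries.single 1 1) := by
    rw [map_sub, map_pow, hX, hC]
    linear_combination h1
  rw [h2] at hn ho
  obtain ⟨h3, h4⟩ := ord_st (-1) hn
  refine ⟨h3, ?_⟩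
  rw [h4] at ho
  linarith

private theorem det4 {R : Type} [CommRing R] (z0 z1 y0 y1 t s : R) :
    (!![z0, t * z0, 1, t; z1, t * z1, 1, t; y0, s * y0, 1, s; y1, s * y1, 1, s] :
      Matrix (Fin 4) (Fin 4) R).det = -((z0 - z1) * (y0 - y1) * ((t - s) * (t - s))) := by
  simp [Matrix.det_succ_row_zero, Fin.sum_univ_succ, Fin.succAbove]
  ring

theorem gm_val (a : F) (ha : ¬ IsSquare a) (e : ℕ → F) (he : ∀ n, e n ≠ 0)
    (Z Y : Fin 2 → ℕ → LaurentSeries F) (h : Sys a e Z Y) (x : Fin 4 → F[X]) (hx : x ≠ 0) :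
    ∏ i, ∑ j, gm Z Y i j * et F (x j) ≠ 0 ∧
      (∏ i, ∑ j, gm Z Y i j * et F (x j)).order ≤ 0 := by
  obtain ⟨k, A, B, a1, a2, b1, b2, a3, b3⟩ := clear₂ (x 0) (x 1) (x 2) (x 3)
  have hAB : A ≠ 0 ∨ B ≠ 0 := by
    by_contra hcon
    push Not at hcon
    obtain ⟨c0, c1⟩ := a3 hcon.1
    obtain ⟨c2, c3⟩ := b3 hcon.2
    refine hx (funext fun i => ?_)
    match i with
    | 0 => exact c0
    | 1 => exact c1
    | 2 => exact c2
    | 3 => exact c3
  obtain ⟨m1, m2⟩ := main_lemma a ha e he Z Y h A B hAB 0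
  obtain ⟨n0, q0⟩ := m1 0
  obtain ⟨n1, q1⟩ := m1 1
  have r0 : ei F A * Z 0 0 + ei F B = HahnSeries.single (-(k : ℤ)) 1 *
      ∑ j, gm Z Y 0 j * et F (x j) := by
    rw [a1, b1, Fin.sum_univ_four]
    simp only [gm, Matrix.of_apply, Matrix.cons_val]
    ring
  have r1 : ei F A * Z 1 0 + ei F B = HahnSeries.single (-(k : ℤ)) 1 *
      ∑ j, gm Z Y 1 j * et F (x j) := by
    rw [a1, b1, Fin.sum_univ_four]
    simp only [gm, Matrix.of_apply, Matrix.cons_val]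
    ring
  have r2 : ez F A * Y 0 0 + ez F B = HahnSeries.single (k : ℤ) 1 *
      ∑ j, gm Z Y 2 j * et F (x j) := by
    rw [a2, b2, Fin.sum_univ_four]
    simp only [gm, Matrix.of_apply, Matrix.cons_val]
    ring
  have r3 : ez F A * Y 1 0 + ez F B = HahnSeries.single (k : ℤ) 1 *
      ∑ j, gm Z Y 3 j * et F (x j) := by
    rw [a2, b2, Fin.sum_univ_four]
    simp only [gm, Matrix.of_apply, Matrix.cons_val]
    ring
  rw [r0] at n0
  rw [r1] at n1
  rw [r2] at q0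
  rw [r3] at q1
  obtain ⟨u0, v0⟩ := ord_st _ n0
  obtain ⟨u1, v1⟩ := ord_st _ n1
  obtain ⟨u2, v2⟩ := ord_st _ q0
  obtain ⟨u3, v3⟩ := ord_st _ q1
  rw [r0, r1, r2, r3, v0, v1, v2, v3] at m2
  rw [Fin.prod_univ_four]
  have w01 := mul_ne_zero u0 u1
  have w012 := mul_ne_zero w01 u2
  refine ⟨mul_ne_zero w012 u3, ?_⟩
  rw [HahnSeries.order_mul w012 u3, HahnSeries.order_mul w01 u2, HahnSeries.order_mul u0 u1]
  linarith

theorem gm_det (a : F) (e : ℕ → F) (Z Y : Fin 2 → ℕ → LaurentSeries F) (h : Sys a e Z Y) :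
    (gm Z Y).det ≠ 0 ∧ (gm Z Y).det.order = -4 := by
  obtain ⟨z1, z2⟩ := h.dZ 0
  obtain ⟨y1, y2⟩ := h.dY 0
  obtain ⟨t1, t2⟩ := ord_ts (F := F)
  have hd : (gm Z Y).det = -((Z 0 0 - Z 1 0) * (Y 0 0 - Y 1 0) *
      ((HahnSeries.single (-1) 1 - HahnSeries.single 1 1) *
        (HahnSeries.single (-1) 1 - HahnSeries.single 1 1))) :=
    det4 _ _ _ _ _ _
  have w1 := mul_ne_zero z1 y1
  have w2 := mul_ne_zero t1 t1
  rw [hd]
  refine ⟨neg_ne_zero.2 (mul_ne_zero w1 w2), ?_⟩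
  rw [HahnSeries.order_neg, HahnSeries.order_mul w1 w2, HahnSeries.order_mul z1 y1,
    HahnSeries.order_mul t1 t1, z2, y2, t2]
  norm_num

end Pool.Agent.H35.FF
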