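import Pool.Agent.H35.FF.Defs

/-!
# THEOREM FF: the substitution `s ↦ s²`, parity

`par_le`: `f_i = φ g_i0 + s^c φ g_i1` (`c` odd, here `c = ±1`), `D = g_00 g_11 - g_10 g_01 ≠ 0`: `f_0, f_1 ≠ 0` and `ord f_0 + ord f_1 ≤ 2 ord D + c`. PROOF: the coefficient of `f_i` at `2n` is the coefficient of `g_i0` at `n`, at `2n + c` the one of `g_i1`; so `ord f_i ≤ 2 ord g_i0` if `g_i0 ≠ 0` and `ord f_i ≤ 2 ord g_i1 + c` if `g_i1 ≠ 0`. `ord D ≥ min (ord (g_00 g_11)) (ord (g_10 g_01))` (one of the products may be zero).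
-/

set_option autoImplicit false

open Polynomial

namespace Pool.Agent.H35.FF

variable {F : Type} [Field F]

theorem phi_even (f : LaurentSeries F) (n : ℤ) : (phi F f).coeff (2 * n) = f.coeff n := by
  show (HahnSeries.embDomain ⟨⟨dbl, dbl_inj⟩, fun {a b} => dbl_le a b⟩ f).coeff
    ((⟨⟨dbl, dbl_inj⟩, fun {a b} => dbl_le a b⟩ : ℤ ↪o ℤ) n) = f.coeff n
  exact HahnSeries.embDomain_coeff

theorem phi_odd (f : LaurentSeries F) (n : ℤ) : (phi F f).coeff (2 * n + 1) = 0 := by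
  show (HahnSeries.embDomain ⟨⟨dbl, dbl_inj⟩, fun {a b} => dbl_le a b⟩ f).coeff (2 * n + 1) = 0
  apply HahnSeries.embDomain_of_notMem_range
  rintro ⟨m, hm⟩
  have h1 : 2 * m = 2 * n + 1 := hm
  omega

theorem phi_single (n : ℤ) (c : F) :
    phi F (HahnSeries.single n c) = HahnSeries.single (2 * n) c := by
  show HahnSeries.embDomain ⟨⟨dbl, dbl_inj⟩, fun {a b} => dbl_le a b⟩ (HahnSeries.single n c) = _
  rw [HahnSeries.embDomain_single]
  rfl

theorem phi_C (c : F) : phi F (HahnSeries.C c) = HahnSeries.C c :=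
  HahnSeries.embDomainRingHom_C

theorem phi_ne {f : LaurentSeries F} (hf : f ≠ 0) :
    phi F f ≠ 0 ∧ (phi F f).order = 2 * f.order := by
  have h1 : (phi F f).coeff (2 * f.order) ≠ 0 := by
    rw [phi_even]
    exact fun h => hf (HahnSeries.coeff_order_eq_zero.1 h)
  have h0 : phi F f ≠ 0 := HahnSeries.ne_zero_of_coeff_ne_zero h1
  refine ⟨h0, le_antisymm (HahnSeries.order_le_of_coeff_ne_zero h1) ?_⟩
  rw [HahnSeries.le_order_iff_forall h0]
  intro j hj
  rcases Int.even_or_odd' j with ⟨m, rfl | rfl⟩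
  · rw [phi_even]
    exact HahnSeries.coeff_eq_zero_of_lt_order (by omega)
  · exact phi_odd f m

private theorem shift (c : ℤ) (f : LaurentSeries F) (n : ℤ) :
    (HahnSeries.single c 1 * phi F f).coeff (2 * n + c) = f.coeff n := by
  rw [HahnSeries.coeff_single_mul, one_mul, add_sub_cancel_right, phi_even]

private theorem shift_even (c : ℤ) (hc : c = 1 ∨ c = -1) (f : LaurentSeries F) (n : ℤ) :
    (HahnSeries.single c 1 * phi F f).coeff (2 * n) = 0 := by
  rw [HahnSeries.coeff_single_mul, one_mul]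
  rcases hc with rfl | rfl
  · rw [show 2 * n - 1 = 2 * (n - 1) + 1 by ring, phi_odd]
  · rw [show 2 * n - -1 = 2 * n + 1 by ring, phi_odd]

private theorem even_shift (c : ℤ) (hc : c = 1 ∨ c = -1) (f : LaurentSeries F) (n : ℤ) :
    (phi F f).coeff (2 * n + c) = 0 := by
  rcases hc with rfl | rfl
  · rw [phi_odd]
  · rw [show 2 * n + -1 = 2 * (n - 1) + 1 by ring, phi_odd]

private theorem co_even (c : ℤ) (hc : c = 1 ∨ c = -1) (g₀ g₁ : LaurentSeries F) (n : ℤ) :
    (phi F g₀ + HahnSeries.single c 1 * phi F g₁).coeff (2 * n) = g₀.coeff n := by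
  rw [HahnSeries.coeff_add, phi_even, shift_even c hc, add_zero]

private theorem co_shift (c : ℤ) (hc : c = 1 ∨ c = -1) (g₀ g₁ : LaurentSeries F) (n : ℤ) :
    (phi F g₀ + HahnSeries.single c 1 * phi F g₁).coeff (2 * n + c) = g₁.coeff n := by
  rw [HahnSeries.coeff_add, shift, even_shift c hc, zero_add]

theorem par_zero (c : ℤ) (hc : c = 1 ∨ c = -1) (g₀ g₁ : LaurentSeries F)
    (h : phi F g₀ + HahnSeries.single c 1 * phi F g₁ = 0) : g₀ = 0 ∧ g₁ = 0 := by
  constructor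
  · ext n
    rw [← co_even c hc g₀ g₁ n, h, HahnSeries.coeff_zero, HahnSeries.coeff_zero]
  · ext n
    rw [← co_shift c hc g₀ g₁ n, h, HahnSeries.coeff_zero, HahnSeries.coeff_zero]

private theorem ord_left (c : ℤ) (hc : c = 1 ∨ c = -1) (g₀ g₁ : LaurentSeries F) (h : g₀ ≠ 0) :
    (phi F g₀ + HahnSeries.single c 1 * phi F g₁).order ≤ 2 * g₀.order := by
  apply HahnSeries.order_le_of_coeff_ne_zero
  rw [co_even c hc]
  exact fun h1 => h (HahnSeries.coeff_order_eq_zero.1 h1)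

private theorem ord_right (c : ℤ) (hc : c = 1 ∨ c = -1) (g₀ g₁ : LaurentSeries F) (h : g₁ ≠ 0) :
    (phi F g₀ + HahnSeries.single c 1 * phi F g₁).order ≤ 2 * g₁.order + c := by
  apply HahnSeries.order_le_of_coeff_ne_zero
  rw [co_shift c hc]
  exact fun h1 => h (HahnSeries.coeff_order_eq_zero.1 h1)

theorem par_le (c : ℤ) (hc : c = 1 ∨ c = -1) (g₀₀ g₀₁ g₁₀ g₁₁ : LaurentSeries F)
    (hD : g₀₀ * g₁₁ - g₁₀ * g₀₁ ≠ 0) :
    phi F g₀₀ + HahnSeries.single c 1 * phi F g₀₁ ≠ 0 ∧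
    phi F g₁₀ + HahnSeries.single c 1 * phi F g₁₁ ≠ 0 ∧
    (phi F g₀₀ + HahnSeries.single c 1 * phi F g₀₁).order +
      (phi F g₁₀ + HahnSeries.single c 1 * phi F g₁₁).order ≤
        2 * (g₀₀ * g₁₁ - g₁₀ * g₀₁).order + c := by
  refine ⟨fun h => ?_, fun h => ?_, ?_⟩
  · obtain ⟨h1, h2⟩ := par_zero c hc _ _ h
    apply hD
    rw [h1, h2, zero_mul, mul_zero, sub_zero]
  · obtain ⟨h1, h2⟩ := par_zero c hc _ _ h
    apply hD
    rw [h1, h2, zero_mul, mul_zero, sub_zero]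
  · have hA : g₀₀ * g₁₁ ≠ 0 → (phi F g₀₀ + HahnSeries.single c 1 * phi F g₀₁).order +
        (phi F g₁₀ + HahnSeries.single c 1 * phi F g₁₁).order ≤ 2 * (g₀₀ * g₁₁).order + c := by
      intro h
      have h0 : g₀₀ ≠ 0 := left_ne_zero_of_mul h
      have h1 : g₁₁ ≠ 0 := right_ne_zero_of_mul h
      rw [HahnSeries.order_mul h0 h1]
      have h2 := ord_left c hc g₀₀ g₀₁ h0
      have h3 := ord_right c hc g₁₀ g₁₁ h1
      linarith
    have hB : g₁₀ * g₀₁ ≠ 0 → (phi F g₀₀ + HahnSeries.single c 1 * phi F g₀₁).order +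
        (phi F g₁₀ + HahnSeries.single c 1 * phi F g₁₁).order ≤ 2 * (g₁₀ * g₀₁).order + c := by
      intro h
      have h0 : g₁₀ ≠ 0 := left_ne_zero_of_mul h
      have h1 : g₀₁ ≠ 0 := right_ne_zero_of_mul h
      rw [HahnSeries.order_mul h0 h1]
      have h2 := ord_right c hc g₀₀ g₀₁ h1
      have h3 := ord_left c hc g₁₀ g₁₁ h0
      linarith
    by_cases h1 : g₁₀ * g₀₁ = 0
    · rw [h1, sub_zero] at hD ⊢
      exact hA hD
    · by_cases h2 : g₀₀ * g₁₁ = 0
      · rw [h2, zero_sub, HahnSeries.order_neg]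
        exact hB h1
      · have h3 : min (g₀₀ * g₁₁).order (-(g₁₀ * g₀₁)).order ≤ (g₀₀ * g₁₁ + -(g₁₀ * g₀₁)).order :=
          HahnSeries.min_order_le_order_add (by rwa [← sub_eq_add_neg])
        rw [HahnSeries.order_neg, ← sub_eq_add_neg] at h3
        rcases min_le_iff.1 h3 with h4 | h4
        · have := hA h2
          linarith
        · have := hB h1
          linarith

end Pool.Agent.H35.FF
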