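import Pool.Agent.H35.FF.Ex
import Pool.Agent.H35.FF.Ma

/-!
# THEOREM FF: the system

`Z 0 = W + s⁻² H_a`, `Z 1 = W - s⁻² H_a`, `Y 0 n = V n`, `Y 1 n = V n + (-a)^n G`, `G = H_(a⁻¹)`. `s⁻² H_a (s⁻² - a) = s⁻⁴ H_a (1 - a s²) = s⁻⁴ φ(H_a) = φ(s⁻² H_a)`; `(-a)^n G (s² - a) = (-a)^(n+1) G (1 - a⁻¹ s²) = φ((-a)^(n+1) G)`. `Z 0 n - Z 1 n = 2 s⁻² H_a` (order `-2`, `2 ≠ 0`), `Y 0 n - Y 1 n = - (-a)^n G` (order `0`).
-/

set_option autoImplicit false

open Polynomial

namespace Pool.Agent.H35.FF

variable {F : Type} [Field F]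

private theorem eiQ (a : F) :
    ei F (X ^ 2 - C a) = HahnSeries.single (-2) 1 - HahnSeries.C a := by
  have h1 : ei F X = HahnSeries.single (-1) 1 := by
    rw [ei, coe_eval₂RingHom, eval₂_X]
  have h2 : ei F (C a) = HahnSeries.C a := by
    rw [ei, coe_eval₂RingHom, eval₂_C]
  rw [map_sub, map_pow, h1, h2, sq, HahnSeries.single_mul_single, one_mul]
  rfl

private theorem ezQ (a : F) :
    ez F (X ^ 2 - C a) = HahnSeries.single 2 1 - HahnSeries.C a := by
  have h1 : ez F X = HahnSeries.single 1 1 := by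
    rw [ez, coe_eval₂RingHom, eval₂_X]
  have h2 : ez F (C a) = HahnSeries.C a := by
    rw [ez, coe_eval₂RingHom, eval₂_C]
  rw [map_sub, map_pow, h1, h2, sq, HahnSeries.single_mul_single, one_mul]
  rfl

private theorem single_two (a : F) :
    (HahnSeries.single 2 a : LaurentSeries F) = HahnSeries.C a * HahnSeries.single 2 1 := by
  rw [HahnSeries.C_apply, HahnSeries.single_mul_single, zero_add, mul_one]

private theorem single_four :
    (HahnSeries.single (-2) 1 : LaurentSeries F) * HahnSeries.single 2 1 = 1 := by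
  rw [HahnSeries.single_mul_single, mul_one]
  rfl

/-- the homogeneous solution at infinity -/
private theorem homZ (a : F) (H : LaurentSeries F) (hH : H * (1 - HahnSeries.single 2 a) = phi F H) :
    HahnSeries.single (-2) 1 * H * ei F (X ^ 2 - C a) =
      phi F (HahnSeries.single (-2) 1 * H) := by
  have h1 : phi F (HahnSeries.single (-2) 1) =
      (HahnSeries.single (-2) 1 * HahnSeries.single (-2) 1 : LaurentSeries F) := by
    rw [phi_single, HahnSeries.single_mul_single, mul_one]
    rfl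
  rw [map_mul, h1, ← hH, eiQ, single_two a]
  have h2 := single_four (F := F)
  linear_combination (HahnSeries.C a * HahnSeries.single (-2) 1 * H) * h2

/-- the homogeneous solution at zero -/
private theorem homY (a : F) (ha : a ≠ 0) (c : F) (G : LaurentSeries F)
    (hG : G * (1 - HahnSeries.single 2 a⁻¹) = phi F G) :
    HahnSeries.C c * G * ez F (X ^ 2 - C a) = phi F (HahnSeries.C (-a * c) * G) := by
  rw [map_mul, phi_C, ← hG, ezQ, single_two a⁻¹, map_mul HahnSeries.C (-a) c, map_neg]
  have h2 : (HahnSeries.C a : LaurentSeries F) * HahnSeries.C a⁻¹ = 1 := by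
    rw [← map_mul, mul_inv_cancel₀ ha, map_one]
  linear_combination (-(HahnSeries.C c * G * HahnSeries.single 2 1)) * h2

/-- The system, with `Z 0 n + Z 1 n = 2 W n`; `W` is the only part which depends on `e` (at infinity). -/
theorem sys_exists (h2 : (2 : F) ≠ 0) (a : F) (ha : a ≠ 0) (e : ℕ → F) :
    ∃ Z Y : Fin 2 → ℕ → LaurentSeries F, Sys a e Z Y ∧
      (∀ n k, k ≤ 0 → (Z 0 n + Z 1 n).coeff k = 0) ∧
      ∀ n, (Z 0 n + Z 1 n).coeff 1 = 2 * e n := by
  obtain ⟨H, hH0, hHo, -, hH⟩ := exH a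
  obtain ⟨G, hG0, hGo, -, hG⟩ := exH a⁻¹
  obtain ⟨W, hW, hW0, hW1⟩ := exW a e
  obtain ⟨V, hV, -⟩ := exV a ha e
  have hsum : ∀ n, (W n + HahnSeries.single (-2) 1 * H) + (W n - HahnSeries.single (-2) 1 * H) =
      W n + W n := fun n => by ring
  refine ⟨fun i n => if i = 0 then W n + HahnSeries.single (-2) 1 * H
      else W n - HahnSeries.single (-2) 1 * H,
    fun i n => if i = 0 then V n else V n + HahnSeries.C ((-a) ^ n) * G, ⟨?_, ?_, ?_, ?_⟩, ?_, ?_⟩
  · intro i n
    have h1 := homZ a H hH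
    match i with
    | 0 =>
      rw [if_pos rfl, if_pos rfl, add_mul, hW, h1, map_add]
      ring
    | 1 =>
      rw [if_neg (by decide), if_neg (by decide), sub_mul, hW, h1, map_sub]
      ring
  · intro i n
    have h1 := homY a ha ((-a) ^ n) G hG
    match i with
    | 0 =>
      rw [if_pos rfl, if_pos rfl, hV]
    | 1 =>
      rw [if_neg (by decide), if_neg (by decide), add_mul, hV, h1, map_add, ← pow_succ']
      ring
  · intro n
    rw [if_pos rfl, if_neg (by decide)]
    have h1 : (W n + HahnSeries.single (-2) 1 * H) - (W n - HahnSeries.single (-2) 1 * H) =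
        HahnSeries.single (-2) (2 : F) * H := by
      have h3 : (HahnSeries.single (-2) (2 : F) : LaurentSeries F) =
          2 * HahnSeries.single (-2) 1 := by
        have h4 : (2 : LaurentSeries F) = HahnSeries.C 2 := (map_ofNat HahnSeries.C 2).symm
        rw [h4, HahnSeries.C_apply, HahnSeries.single_mul_single, zero_add, mul_one]
      rw [h3]
      ring
    have h3 : (HahnSeries.single (-2) (2 : F) : LaurentSeries F) ≠ 0 := HahnSeries.single_ne_zero h2
    rw [h1]
    refine ⟨mul_ne_zero h3 hH0, ?_⟩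
    rw [HahnSeries.order_mul h3 hH0, HahnSeries.order_single h2, hHo, add_zero]
  · intro n
    rw [if_pos rfl, if_neg (by decide)]
    have hc : -(-a) ^ n ≠ 0 := neg_ne_zero.2 (pow_ne_zero _ (neg_ne_zero.2 ha))
    have h1 : V n - (V n + HahnSeries.C ((-a) ^ n) * G) = HahnSeries.single 0 (-(-a) ^ n) * G := by
      have h3 : (HahnSeries.single 0 (-(-a) ^ n) : LaurentSeries F) = -HahnSeries.C ((-a) ^ n) := by
        rw [← map_neg HahnSeries.C, HahnSeries.C_apply]
      rw [h3]
      ring
    have h3 : (HahnSeries.single 0 (-(-a) ^ n) : LaurentSeries F) ≠ 0 := HahnSeries.single_ne_zero hc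
    rw [h1]
    refine ⟨mul_ne_zero h3 hG0, ?_⟩
    rw [HahnSeries.order_mul h3 hG0, HahnSeries.order_single hc, hGo, add_zero]
  · intro n k hk
    beta_reduce
    rw [if_pos rfl, if_neg (by decide), hsum, HahnSeries.coeff_add, hW0 n k hk, add_zero]
  · intro n
    beta_reduce
    rw [if_pos rfl, if_neg (by decide), hsum, HahnSeries.coeff_add, hW1 n, two_mul]

end Pool.Agent.H35.FF
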