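import Mathlib

/-!
# THEOREM FF (MP_edeaa2): the definitions of the statement

`LaurentSeries F` is the field `F((1/X))`: its variable is `1/X`, and `|f| = q ^ (- order f)` for
`f ≠ 0`, where `q` is the number of elements of `F`.
-/

set_option autoImplicit false

open Polynomial

namespace Pool.Agent.H35.FF

/-- The embedding `F[X] → F((1/X))`: `X` goes to the inverse of the variable of the series. -/
noncomputable def ei (F : Type) [Field F] : F[X] →+* LaurentSeries F :=
  eval₂RingHom HahnSeries.C (HahnSeries.single (-1) 1)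

/-- The product of the four linear forms given by the rows of `g`. -/
noncomputable def form {F : Type} [Field F] (g : Matrix (Fin 4) (Fin 4) (LaurentSeries F)) :
    MvPolynomial (Fin 4) (LaurentSeries F) :=
  ∏ i, ∑ j, MvPolynomial.C (g i j) * MvPolynomial.X j

/-- `P` is a product of four linearly independent linear forms (the rows of `g`) over `F((1/X))`,
and `|P(x)| ≥ q⁻⁴ |det g|` for all `x ∈ F[X]⁴`, `x ≠ 0` (`|f| = q ^ (- order f)`). -/
def Bounded (F : Type) [Field F] (P : MvPolynomial (Fin 4) (LaurentSeries F)) : Prop :=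
  ∃ g : Matrix (Fin 4) (Fin 4) (LaurentSeries F), g.det ≠ 0 ∧ P = form g ∧
    ∀ x : Fin 4 → F[X], x ≠ 0 →
      MvPolynomial.eval (fun j => ei F (x j)) P ≠ 0 ∧
      (MvPolynomial.eval (fun j => ei F (x j)) P).order ≤ g.det.order + 4

/-- `P` is proportional to a form with coefficients in `F[X]`. -/
def Integral (F : Type) [Field F] (P : MvPolynomial (Fin 4) (LaurentSeries F)) : Prop :=
  ∃ (c : LaurentSeries F) (G : MvPolynomial (Fin 4) F[X]), c ≠ 0 ∧
    P = MvPolynomial.C c * MvPolynomial.map (ei F) G

/-- The form `Q(U x)`, `U` a matrix over `F[X]`. -/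
noncomputable def subst {F : Type} [Field F] (U : Matrix (Fin 4) (Fin 4) F[X])
    (Q : MvPolynomial (Fin 4) (LaurentSeries F)) : MvPolynomial (Fin 4) (LaurentSeries F) :=
  MvPolynomial.bind₁ (fun i => ∑ j, MvPolynomial.C (ei F (U i j)) * MvPolynomial.X j) Q

/-- `P` and `Q` differ by a factor and a linear change of variables in `GL₄(F[X])`. -/
def Equivalent {F : Type} [Field F] (P Q : MvPolynomial (Fin 4) (LaurentSeries F)) : Prop :=
  ∃ (c : LaurentSeries F) (U : GL (Fin 4) F[X]), c ≠ 0 ∧ P = MvPolynomial.C c * subst U.1 Q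

end Pool.Agent.H35.FF
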