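import Pool.Agent.H35.FF.In

/-!
# THEOREM FF: uncountably many classes

`seq_inj`: the series at infinity determine the sequence `e`. `U_n (s⁻² - a) = φ(U_(n+1)) + 2 e_n s⁻¹` for `e` and `U'` for `e'`, coefficients at `1`: `2 e n`, `2 e' n`. If `U_n = U'_n` then `e n = e' n` (coefficient at `1`), then `φ(U_(n+1)) = φ(U'_(n+1))`, `U_(n+1) = U'_(n+1)`. Induction.
`unc`: `Λ` an index set `ℕ → Bool` (`e n = 1` or `-1`), `p : (ℕ → Bool) → MvPolynomial (Fin 4) K` injective with `eval (0,0,1,0) (p b) = 1`; `F` finite, so `GL (Fin 4) F[X]` is countable (`F[X]` countable). If every `p b` is equivalent to some `f n`, then `p b = C c * subst U (f n)` where `c` is determined by `(n, U)` (value at `(0,0,1,0)`), so `b ↦ (n, U)` is injective: `ℕ → Bool` would be countable (`Cardinal`, or `Function.Embedding`, `not_countable` for `ℕ → Bool`/`Set ℕ`).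
-/

set_option autoImplicit false

open Polynomial

namespace Pool.Agent.H35.FF

variable {F : Type} [Field F]

theorem seq_inj (h2 : (2 : F) ≠ 0) (a : F) (e e' : ℕ → F) (U U' : ℕ → LaurentSeries F)
    (hU : ∀ n, U n * ei F (X ^ 2 - C a) = phi F (U (n + 1)) + HahnSeries.single (-1) (2 * e n))
    (hU' : ∀ n, U' n * ei F (X ^ 2 - C a) =
      phi F (U' (n + 1)) + HahnSeries.single (-1) (2 * e' n))
    (h1 : ∀ n, (U n).coeff 1 = 2 * e n) (h1' : ∀ n, (U' n).coeff 1 = 2 * e' n)
    (h0 : U 0 = U' 0) : e = e' := by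
  have hstep : ∀ n, U n = U' n → e n = e' n := by
    intro n hn
    have h3 := h1 n
    rw [hn, h1' n] at h3
    exact (mul_left_cancel₀ h2 h3).symm
  have hall : ∀ n, U n = U' n := by
    intro n
    induction n with
    | zero => exact h0
    | succ n ih =>
      have h4 := hU n
      rw [ih, hstep n ih, hU' n] at h4
      exact ((phi F).injective (add_right_cancel h4)).symm
  funext n
  exact hstep n (hall n)

theorem unc [Finite F] (p : (ℕ → Bool) → MvPolynomial (Fin 4) (LaurentSeries F))
    (hp : Function.Injective p) (hp1 : ∀ b, MvPolynomial.eval ![0, 0, 1, 0] (p b) = 1)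
    (f : ℕ → MvPolynomial (Fin 4) (LaurentSeries F)) :
    ∃ b, ∀ n, ¬ Equivalent (p b) (f n) := by
  by_contra hcon
  have hall : ∀ b, ∃ n, Equivalent (p b) (f n) := by
    intro b
    by_contra hb
    exact hcon ⟨b, fun n hn => hb ⟨n, hn⟩⟩
  choose n c U hc hU using hall
  have hF : Countable F[X] := by
    rw [← Cardinal.mk_le_aleph0_iff]
    refine (Polynomial.cardinalMk_le_max (R := F)).trans (max_le ?_ le_rfl)
    exact Cardinal.mk_le_aleph0
  have hM : Countable (Matrix (Fin 4) (Fin 4) F[X]) :=
    inferInstanceAs (Countable (Fin 4 → Fin 4 → F[X]))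
  have hinj : Function.Injective (fun b : ℕ → Bool => (n b, (U b).1)) := by
    intro b b' hbb
    have h1 : n b = n b' := congrArg Prod.fst hbb
    have h2 : (U b).1 = (U b').1 := congrArg Prod.snd hbb
    have e1 := hU b
    have e2 := hU b'
    rw [← h1, ← h2] at e2
    have v1 : c b * MvPolynomial.eval ![0, 0, 1, 0] (subst (U b).1 (f (n b))) = 1 := by
      have h3 := hp1 b
      rw [e1, map_mul, MvPolynomial.eval_C] at h3
      exact h3
    have v2 : c b' * MvPolynomial.eval ![0, 0, 1, 0] (subst (U b).1 (f (n b))) = 1 := by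
      have h3 := hp1 b'
      rw [e2, map_mul, MvPolynomial.eval_C] at h3
      exact h3
    have h4 : c b = c b' := (eq_inv_of_mul_eq_one_left v1).trans (eq_inv_of_mul_eq_one_left v2).symm
    apply hp
    rw [e1, e2, h4]
  have hcount : Countable (ℕ → Bool) := hinj.countable
  obtain ⟨g, hg⟩ := exists_surjective_nat (ℕ → Bool)
  obtain ⟨m, hm⟩ := hg (fun k => !(g k k))
  have h5 : g m m = !(g m m) := congrFun hm m
  cases h6 : g m m with
  | false =>
    rw [h6] at h5
    exact Bool.noConfusion h5
  | true =>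
    rw [h6] at h5
    exact Bool.noConfusion h5

end Pool.Agent.H35.FF
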